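import Pool.Agent.W724.TWB.Pwk4

/-! TWB-PWK: pointwise bound for the kinetic energy of the trial function -/

set_option autoImplicit false

noncomputable section

namespace Pool.Agent.W724.TWB

open MeasureTheory Set Filter Metric
open Pool.Agent.W734.TWB

/-- product of the other factors -/
def PC {N : ℕ} (f1 : E3 → ℝ) (f2 : E3 × E3 → ℝ) (c : Cl N) (x : Cfg N) : ℝ :=
  ∏ c' ∈ (sA (Finset.univ : Finset (Fin N))).erase c, FC f1 f2 c' x

theorem PC_nonneg {N : ℕ} {R1 R2 : ℝ} {f1 : E3 → ℝ} {f2 : E3 × E3 → ℝ} (h1 : PairF R1 f1)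
    (h2 : TripF R2 f2) (c : Cl N) (x : Cfg N) : 0 ≤ PC f1 f2 c x :=
  Finset.prod_nonneg (fun d _ => (FC_mem h1 h2 d x).1)

section cross

variable {N : ℕ} (hN : 1 ≤ N) {R1 R2 : ℝ} {f1 : E3 → ℝ} {f2 : E3 × E3 → ℝ}
    (hR1 : 0 < R1) (hR2 : 0 < R2) (h1 : PairF R1 f1) (h2 : TripF R2 f2)
    {C0 : ℝ} (hC0 : 0 ≤ C0) (hz1 : ∀ z, R1 < ‖z‖ → fderiv ℝ f1 z = 0)
    (hz2 : ∀ z, R2 < ‖z‖ → fderiv ℝ f2 z = 0) (hb1 : ∀ z, ‖fderiv ℝ f1 z‖ ≤ C0)
    (hb2 : ∀ z, ‖fderiv ℝ f2 z‖ ≤ C0) (x : Cfg N)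
    (hJ01 : ∀ A : Finset (Fin N), 0 ≤ JA f1 f2 A x ∧ JA f1 f2 A x ≤ 1)
    (hJm : ∀ A B : Finset (Fin N), B ⊆ A → JA f1 f2 A x ≤ JA f1 f2 B x) (m : Fin N) (k : Fin 3)

include hN hR1 hR2 h1 h2 hC0 hz1 hz2 hb1 hb2 hJ01 hJm

theorem crossT1 : JA f1 f2 Finset.univ x * ∑ c ∈ sA (Finset.univ : Finset (Fin N)),
      PC f1 f2 c x * |LC f1 f2 c x (wv m k)| ≤ C0 * errA f1 f2 (R1 + 2 * R2) m x := by
  have e1 : ∑ c ∈ sA (Finset.univ : Finset (Fin N)), PC f1 f2 c x * |LC f1 f2 c x (wv m k)| =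
      ∑ c ∈ (sA (Finset.univ : Finset (Fin N))).filter (fun c => m ∈ VV c),
        PC f1 f2 c x * |LC f1 f2 c x (wv m k)| := by
    rw [Finset.sum_filter]
    refine Finset.sum_congr rfl (fun c _ => ?_)
    by_cases h : m ∈ VV c
    · rw [if_pos h]
    · rw [if_neg h, LC_zero f1 f2 c x m k h]
      simp
  rw [e1, Finset.mul_sum]
  set g : Fin N × Fin N → ℝ := fun d => bet (R1 + 2 * R2) m x d *
      (JA f1 f2 (Finset.univ \ insert m ({d.1, d.2} : Finset (Fin N))) x) ^ 2 with hg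
  have e2 : ∑ c ∈ (sA (Finset.univ : Finset (Fin N))).filter (fun c => m ∈ VV c),
      JA f1 f2 Finset.univ x * (PC f1 f2 c x * |LC f1 f2 c x (wv m k)|) ≤
      C0 * ∑ c ∈ (sA (Finset.univ : Finset (Fin N))).filter (fun c => m ∈ VV c), g (oth m c) := by
    rw [Finset.mul_sum]
    refine Finset.sum_le_sum (fun c hc => ?_)
    rw [Finset.mem_filter] at hc
    have b1 := LC_bound hN hR1 hR2 hC0 hz1 hz2 hb1 hb2 c hc.1 x m k hc.2
    have b2 := P_le h1 h2 c x hc.1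
    have b3 : JA f1 f2 Finset.univ x ≤ JA f1 f2 (Finset.univ \ VV c) x :=
      hJm _ _ (Finset.subset_univ _)
    have b4 := (oth_mem m c hc.1 hc.2).2
    have b5 : JA f1 f2 Finset.univ x * PC f1 f2 c x ≤ (JA f1 f2 (Finset.univ \ VV c) x) ^ 2 := by
      rw [sq]
      exact mul_le_mul b3 b2 (PC_nonneg h1 h2 c x) (hJ01 _).1
    simp only [hg]
    rw [b4]
    calc JA f1 f2 Finset.univ x * (PC f1 f2 c x * |LC f1 f2 c x (wv m k)|)
        = JA f1 f2 Finset.univ x * PC f1 f2 c x * |LC f1 f2 c x (wv m k)| := by ring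
      _ ≤ (JA f1 f2 (Finset.univ \ VV c) x) ^ 2 * (C0 * bet (R1 + 2 * R2) m x (oth m c)) :=
          mul_le_mul b5 b1 (abs_nonneg _) (sq_nonneg _)
      _ = C0 * (bet (R1 + 2 * R2) m x (oth m c) * (JA f1 f2 (Finset.univ \ VV c) x) ^ 2) := by
          ring
  refine le_trans e2 (mul_le_mul_of_nonneg_left ?_ hC0)
  have e3 := sum_le_of_inj ((sA (Finset.univ : Finset (Fin N))).filter (fun c => m ∈ VV c))
    (DD' m) (oth m) g
    (fun c hc => (oth_mem m c (Finset.mem_filter.mp hc).1 (Finset.mem_filter.mp hc).2).1)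
    (fun c hc c' hc' h => oth_inj m c c' (Finset.mem_filter.mp hc).1 (Finset.mem_filter.mp hc').1
      (Finset.mem_filter.mp hc).2 (Finset.mem_filter.mp hc').2 h)
    (fun d _ => mul_nonneg (bet_nonneg _ _ _ _) (sq_nonneg _))
  refine le_trans e3 ?_
  refine le_trans (T1_bound f1 f2 (R1 + 2 * R2) m x) ?_
  have n3 : 0 ≤ (N : ℝ) ^ 2 * errT f1 f2 (R1 + 2 * R2) 2 ![true, true] m x :=
    mul_nonneg (by positivity) (errT_nonneg _ _ _ _ _ _)
  have n4 : 0 ≤ (N : ℝ) * Real.sqrt N * errT f1 f2 (R1 + 2 * R2) 2 ![true, false] m x :=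
    mul_nonneg (by positivity) (errT_nonneg _ _ _ _ _ _)
  have n5 : 0 ≤ (N : ℝ) * Real.sqrt N * errT f1 f2 (R1 + 2 * R2) 3 ![true, false, false] m x :=
    mul_nonneg (by positivity) (errT_nonneg _ _ _ _ _ _)
  have n6 : 0 ≤ (N : ℝ) * errT f1 f2 (R1 + 2 * R2) 3 ![false, false, false] m x :=
    mul_nonneg (by positivity) (errT_nonneg _ _ _ _ _ _)
  have n7 : 0 ≤ (N : ℝ) * errT f1 f2 (R1 + 2 * R2) 4 ![false, false, false, false] m x :=
    mul_nonneg (by positivity) (errT_nonneg _ _ _ _ _ _)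
  rw [errA]
  linarith

theorem crossT2 : ∑ y ∈ (sA (Finset.univ : Finset (Fin N)) ×ˢ
      sA (Finset.univ : Finset (Fin N))).filter (fun y => y.1 ≠ y.2),
      (PC f1 f2 y.1 x * |LC f1 f2 y.1 x (wv m k)|) * (PC f1 f2 y.2 x * |LC f1 f2 y.2 x (wv m k)|)
      ≤ 4 * C0 ^ 2 * errA f1 f2 (R1 + 2 * R2) m x := by
  set s := sA (Finset.univ : Finset (Fin N)) with hs
  have e1 : ∑ y ∈ (s ×ˢ s).filter (fun y => y.1 ≠ y.2),
      (PC f1 f2 y.1 x * |LC f1 f2 y.1 x (wv m k)|) * (PC f1 f2 y.2 x * |LC f1 f2 y.2 x (wv m k)|) =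
      ∑ y ∈ ((s ×ˢ s).filter (fun y => y.1 ≠ y.2)).filter
        (fun y => m ∈ VV y.1 ∧ m ∈ VV y.2),
      (PC f1 f2 y.1 x * |LC f1 f2 y.1 x (wv m k)|) *
        (PC f1 f2 y.2 x * |LC f1 f2 y.2 x (wv m k)|) := by
    rw [Finset.sum_filter (fun y : Cl N × Cl N => m ∈ VV y.1 ∧ m ∈ VV y.2)]
    refine Finset.sum_congr rfl (fun y _ => ?_)
    by_cases h : m ∈ VV y.1 ∧ m ∈ VV y.2
    · rw [if_pos h]
    · rw [if_neg h]
      by_cases h' : m ∈ VV y.1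
      · have h'' : m ∉ VV y.2 := fun hh => h ⟨h', hh⟩
        rw [LC_zero f1 f2 y.2 x m k h'']
        simp
      · rw [LC_zero f1 f2 y.1 x m k h']
        simp
  rw [e1]
  set S := ((s ×ˢ s).filter (fun y => y.1 ≠ y.2)).filter
        (fun y => m ∈ VV y.1 ∧ m ∈ VV y.2) with hS
  have hSm : ∀ y ∈ S, y.1 ∈ s ∧ y.2 ∈ s ∧ y.1 ≠ y.2 ∧ m ∈ VV y.1 ∧ m ∈ VV y.2 := by
    intro y hy
    rw [hS, Finset.mem_filter, Finset.mem_filter, Finset.mem_product] at hy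
    exact ⟨hy.1.1.1, hy.1.1.2, hy.1.2, hy.2.1, hy.2.2⟩
  have e2 : ∑ y ∈ S, (PC f1 f2 y.1 x * |LC f1 f2 y.1 x (wv m k)|) *
        (PC f1 f2 y.2 x * |LC f1 f2 y.2 x (wv m k)|) ≤
      C0 ^ 2 * ∑ y ∈ S, g2 f1 f2 (R1 + 2 * R2) m x (oth m y.1, oth m y.2) := by
    rw [Finset.mul_sum]
    refine Finset.sum_le_sum (fun y hy => ?_)
    obtain ⟨a1, a2, a3, a4, a5⟩ := hSm y hy
    have b1 := LC_bound hN hR1 hR2 hC0 hz1 hz2 hb1 hb2 y.1 a1 x m k a4
    have b2 := LC_bound hN hR1 hR2 hC0 hz1 hz2 hb1 hb2 y.2 a2 x m k a5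
    have c1 := (oth_mem m y.1 a1 a4).2
    have c2 := (oth_mem m y.2 a2 a5).2
    have hset : insert m ({(oth m y.1).1, (oth m y.1).2, (oth m y.2).1, (oth m y.2).2} :
        Finset (Fin N)) = VV y.1 ∪ VV y.2 := by
      rw [← c1, ← c2]
      ext z
      simp only [Finset.mem_insert, Finset.mem_singleton, Finset.mem_union]
      tauto
    have d1 : PC f1 f2 y.1 x ≤ JA f1 f2 (Finset.univ \ (VV y.1 ∪ VV y.2)) x :=
      le_trans (P_le h1 h2 y.1 x a1)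
        (hJm _ _ (Finset.sdiff_subset_sdiff le_rfl Finset.subset_union_left))
    have d2 : PC f1 f2 y.2 x ≤ JA f1 f2 (Finset.univ \ (VV y.1 ∪ VV y.2)) x :=
      le_trans (P_le h1 h2 y.2 x a2)
        (hJm _ _ (Finset.sdiff_subset_sdiff le_rfl Finset.subset_union_right))
    have d3 : PC f1 f2 y.1 x * PC f1 f2 y.2 x ≤
        (JA f1 f2 (Finset.univ \ (VV y.1 ∪ VV y.2)) x) ^ 2 := by
      rw [sq]
      exact mul_le_mul d1 d2 (PC_nonneg h1 h2 _ x) (hJ01 _).1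
    have d4 : |LC f1 f2 y.1 x (wv m k)| * |LC f1 f2 y.2 x (wv m k)| ≤
        (C0 * bet (R1 + 2 * R2) m x (oth m y.1)) * (C0 * bet (R1 + 2 * R2) m x (oth m y.2)) :=
      mul_le_mul b1 b2 (abs_nonneg _) (mul_nonneg hC0 (bet_nonneg _ _ _ _))
    rw [g2]
    dsimp only
    rw [hset]
    calc (PC f1 f2 y.1 x * |LC f1 f2 y.1 x (wv m k)|) *
          (PC f1 f2 y.2 x * |LC f1 f2 y.2 x (wv m k)|)
        = (PC f1 f2 y.1 x * PC f1 f2 y.2 x) *
          (|LC f1 f2 y.1 x (wv m k)| * |LC f1 f2 y.2 x (wv m k)|) := by ring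
      _ ≤ (JA f1 f2 (Finset.univ \ (VV y.1 ∪ VV y.2)) x) ^ 2 *
          ((C0 * bet (R1 + 2 * R2) m x (oth m y.1)) *
            (C0 * bet (R1 + 2 * R2) m x (oth m y.2))) :=
          mul_le_mul d3 d4 (mul_nonneg (abs_nonneg _) (abs_nonneg _)) (sq_nonneg _)
      _ = C0 ^ 2 * (bet (R1 + 2 * R2) m x (oth m y.1) * bet (R1 + 2 * R2) m x (oth m y.2) *
          (JA f1 f2 (Finset.univ \ (VV y.1 ∪ VV y.2)) x) ^ 2) := by ring
  refine le_trans e2 ?_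
  have e3 := sum_le_of_inj S (SS m) (fun y => (oth m y.1, oth m y.2))
    (g2 f1 f2 (R1 + 2 * R2) m x)
    (fun y hy => by
      obtain ⟨a1, a2, a3, a4, a5⟩ := hSm y hy
      rw [SS, Finset.mem_filter, Finset.mem_product]
      exact ⟨⟨(oth_mem m y.1 a1 a4).1, (oth_mem m y.2 a2 a5).1⟩,
        fun h => a3 (oth_inj m y.1 y.2 a1 a2 a4 a5 h)⟩)
    (fun y hy z hz h => by
      obtain ⟨a1, a2, a3, a4, a5⟩ := hSm y hy
      obtain ⟨b1, b2, b3, b4, b5⟩ := hSm z hz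
      have q1 := congrArg Prod.fst h
      have q2 := congrArg Prod.snd h
      exact Prod.ext (oth_inj m y.1 z.1 a1 b1 a4 b4 q1) (oth_inj m y.2 z.2 a2 b2 a5 b5 q2))
    (fun y _ => g2_nonneg _ _ _ _ _ _)
  have e4 := T2_bound f1 f2 (R1 + 2 * R2) m x
  have e5 : ∑ y ∈ S, g2 f1 f2 (R1 + 2 * R2) m x (oth m y.1, oth m y.2) ≤
      4 * errA f1 f2 (R1 + 2 * R2) m x := le_trans e3 e4
  have := mul_le_mul_of_nonneg_left e5 (sq_nonneg C0)
  linarith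

end cross

theorem sq_sum {α : Type*} [DecidableEq α] (s : Finset α) (a : α → ℝ) :
    (∑ c ∈ s, a c) ^ 2 = ∑ c ∈ s, a c ^ 2 +
      ∑ y ∈ (s ×ˢ s).filter (fun y => y.1 ≠ y.2), a y.1 * a y.2 := by
  rw [sq, Finset.sum_mul_sum, ← Finset.sum_product']
  rw [← Finset.sum_filter_add_sum_filter_not (s ×ˢ s) (fun y => y.1 = y.2)]
  congr 1
  rw [Finset.sum_filter, Finset.sum_product]
  refine Finset.sum_congr rfl (fun c hc => ?_)
  simp [hc, sq]

theorem deriv_Psi {N : ℕ} {R1 R2 : ℝ} {f1 : E3 → ℝ} {f2 : E3 × E3 → ℝ} (h1 : PairF R1 f1)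
    (h2 : TripF R2 f2) {u : E3 → ℂ} (hu : Orb u) (x : Cfg N) (m : Fin N) (k : Fin 3) :
    fderiv ℝ (Psi N f1 f2 u) x (wv m k) =
      (∏ i, u (x i)) * ((∑ c ∈ sA (Finset.univ : Finset (Fin N)),
        PC f1 f2 c x * LC f1 f2 c x (wv m k) : ℝ) : ℂ) +
      ((JA f1 f2 Finset.univ x : ℝ) : ℂ) * ((∏ j ∈ Finset.univ.erase m, u (x j)) *
        fderiv ℝ u (x m) (EuclideanSpace.single k (1 : ℝ))) := by
  have hd1 : Differentiable ℝ f1 := h1.diff.differentiable (by simp)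
  have hd2 : Differentiable ℝ f2 := h2.diff.differentiable (by simp)
  have hdu : Differentiable ℝ u := hu.diff.differentiable (by simp)
  have hΦ : HasFDerivAt (fun y : Cfg N => ∏ i, u (y i))
      (∑ i, (∏ j ∈ Finset.univ.erase i, u (x j)) • ((fderiv ℝ u (x i)).comp
        (ContinuousLinearMap.proj (R := ℝ) (φ := fun _ : Fin N => E3) i))) x := by
    refine HasFDerivAt.finset_prod (fun i _ => ?_)
    exact (hdu (x i)).hasFDerivAt.comp x
      (ContinuousLinearMap.proj (R := ℝ) (φ := fun _ : Fin N => E3) i).hasFDerivAt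
  have hJ : HasFDerivAt (fun y : Cfg N => JA f1 f2 Finset.univ y)
      (∑ c ∈ sA (Finset.univ : Finset (Fin N)), PC f1 f2 c x • LC f1 f2 c x) x := by
    have := HasFDerivAt.finset_prod (u := sA (Finset.univ : Finset (Fin N)))
      (g := fun c y => FC f1 f2 c y) (x := x) (fun c _ => hasF_FC hd1 hd2 c x)
    refine this.congr_of_eventuallyEq (Eventually.of_forall (fun y => ?_))
    exact JA_eq f1 f2 Finset.univ y
  have hJc := (Complex.ofRealCLM.hasFDerivAt (x := JA f1 f2 Finset.univ x)).comp x hJ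
  have hP := hΦ.mul hJc
  have hPsi : HasFDerivAt (Psi N f1 f2 u) _ x := hP
  rw [hPsi.fderiv]
  simp only [ContinuousLinearMap.add_apply, ContinuousLinearMap.smul_apply,
    ContinuousLinearMap.comp_apply, ContinuousLinearMap.sum_apply, smul_eq_mul,
    Complex.ofRealCLM_apply, Function.comp_apply, ContinuousLinearMap.proj_apply]
  congr 2
  rw [Finset.sum_eq_single m]
  · rw [wv_same]
  · intro b _ hb
    rw [wv_ne m k b hb, map_zero, mul_zero]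
  · intro h
    exact absurd (Finset.mem_univ m) h

theorem pwk (hJAB : S_JAB) : S_PWK := by
  intro u hu R1 R2 f1 f2 hR1 hR2 h1 h2
  obtain ⟨hz1, C1, hC1, hb1'⟩ := bddf f1 h1.diff R1 h1.one
  obtain ⟨hz2, C2, hC2, hb2'⟩ := bddf f2 h2.diff R2 h2.one
  set C0 : ℝ := max C1 C2 with hC0d
  have hC0 : 0 ≤ C0 := le_trans hC1 (le_max_left _ _)
  have hb1 : ∀ z, ‖fderiv ℝ f1 z‖ ≤ C0 := fun z => le_trans (hb1' z) (le_max_left _ _)
  have hb2 : ∀ z, ‖fderiv ℝ f2 z‖ ≤ C0 := fun z => le_trans (hb2' z) (le_max_right _ _)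
  refine ⟨3 * (2 * C0 + 4 * C0 ^ 2) + 1, R1 + 2 * R2, by positivity, by positivity, ?_⟩
  intro N hN x
  obtain ⟨-, hJ01', hJm', -⟩ := hJAB R1 R2 f1 f2 h1 h2 N
  have hJ01 : ∀ A : Finset (Fin N), 0 ≤ JA f1 f2 A x ∧ JA f1 f2 A x ≤ 1 := fun A => hJ01' A x
  have hJm : ∀ A B : Finset (Fin N), B ⊆ A → JA f1 f2 A x ≤ JA f1 f2 B x :=
    fun A B h => hJm' A B h x
  set s := sA (Finset.univ : Finset (Fin N)) with hs
  set Jx : ℝ := JA f1 f2 Finset.univ x with hJx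
  have hJx0 : 0 ≤ Jx := (hJ01 _).1
  set B : ℝ := ‖∏ i, u (x i)‖ with hB
  have hB0 : 0 ≤ B := norm_nonneg _
  set A : Fin N → Fin 3 → ℝ := fun m k => ‖(∏ j ∈ Finset.univ.erase m, u (x j)) *
    fderiv ℝ u (x m) (EuclideanSpace.single k (1 : ℝ))‖ with hA
  have hA0 : ∀ m k, 0 ≤ A m k := fun m k => norm_nonneg _
  set a : Fin N → Fin 3 → Cl N → ℝ := fun m k c => PC f1 f2 c x * |LC f1 f2 c x (wv m k)| with ha
  have ha0 : ∀ m k c, 0 ≤ a m k c := fun m k c => mul_nonneg (PC_nonneg h1 h2 c x) (abs_nonneg _)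
  -- weights
  have hB2 : B ^ 2 = wu u x := by
    rw [hB, norm_prod, wu, Finset.prod_pow]
  have hA2 : ∀ m, ∑ k, (A m k) ^ 2 = wh (g3 u) u m x := by
    intro m
    simp only [hA, norm_mul, norm_prod, mul_pow, wh, g3]
    rw [← Finset.mul_sum, Finset.prod_pow, mul_comm]
  have hwuH : ∀ m, wu u x = wh (fun z => ‖u z‖ ^ 2) u m x := by
    intro m
    rw [wu, wh, ← Finset.mul_prod_erase Finset.univ _ (Finset.mem_univ m)]
  set H : Fin N → ℝ := fun m => wh (fun z => g3 u z + ‖u z‖ ^ 2) u m x with hH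
  have hHe : ∀ m, H m = wh (g3 u) u m x + wu u x := by
    intro m
    rw [hwuH m]
    simp only [hH, wh]
    ring
  have hwu0 : 0 ≤ wu u x := by
    rw [← hB2]
    exact sq_nonneg _
  have hwh0 : ∀ m, 0 ≤ wh (g3 u) u m x := by
    intro m
    rw [← hA2 m]
    exact Finset.sum_nonneg (fun k _ => sq_nonneg _)
  have hH0 : ∀ m, 0 ≤ H m := fun m => by
    rw [hHe m]
    exact add_nonneg (hwh0 m) hwu0
  have hBH : ∀ m, B ^ 2 ≤ H m := fun m => by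
    rw [hHe m, hB2]
    linarith [hwh0 m]
  have hABH : ∀ m k, A m k * B ≤ H m := by
    intro m k
    have e1 : (A m k) ^ 2 ≤ wh (g3 u) u m x := by
      rw [← hA2 m]
      exact Finset.single_le_sum (f := fun k => (A m k) ^ 2) (fun _ _ => sq_nonneg _)
        (Finset.mem_univ k)
    rw [hHe m, ← hB2]
    nlinarith [sq_nonneg (A m k - B), sq_nonneg (A m k), sq_nonneg B]
  have herr0 : ∀ m : Fin N, 0 ≤ errA f1 f2 (R1 + 2 * R2) m x := by
    intro m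
    have := T2_bound f1 f2 (R1 + 2 * R2) m x
    have h0 : 0 ≤ ∑ y ∈ SS m, g2 f1 f2 (R1 + 2 * R2) m x y :=
      Finset.sum_nonneg (fun y _ => g2_nonneg _ _ _ _ _ _)
    linarith
  -- pointwise bound for one derivative
  have hone : ∀ m k, ‖fderiv ℝ (Psi N f1 f2 u) x (wv m k)‖ ^ 2 ≤
      Jx ^ 2 * (A m k) ^ 2 + B ^ 2 * (∑ c ∈ s, (a m k c) ^ 2) +
        H m * ((2 * C0 + 4 * C0 ^ 2) * errA f1 f2 (R1 + 2 * R2) m x) := by
    intro m k
    have e0 : ‖fderiv ℝ (Psi N f1 f2 u) x (wv m k)‖ ≤ B * (∑ c ∈ s, a m k c) + Jx * A m k := by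
      rw [deriv_Psi h1 h2 hu x m k]
      refine le_trans (norm_add_le _ _) ?_
      rw [norm_mul, norm_mul, Complex.norm_real, Complex.norm_real, Real.norm_of_nonneg hJx0]
      refine add_le_add (mul_le_mul_of_nonneg_left ?_ (norm_nonneg _)) le_rfl
      refine le_trans (norm_sum_le _ _) (le_of_eq ?_)
      refine Finset.sum_congr rfl (fun c _ => ?_)
      rw [norm_mul, Real.norm_eq_abs, Real.norm_eq_abs, abs_of_nonneg (PC_nonneg h1 h2 c x)]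
    have hS0 : 0 ≤ ∑ c ∈ s, a m k c := Finset.sum_nonneg (fun c _ => ha0 m k c)
    have e1 : ‖fderiv ℝ (Psi N f1 f2 u) x (wv m k)‖ ^ 2 ≤
        (B * (∑ c ∈ s, a m k c) + Jx * A m k) ^ 2 :=
      pow_le_pow_left₀ (norm_nonneg _) e0 2
    have e2 := sq_sum s (a m k)
    have e3 := crossT1 hN hR1 hR2 h1 h2 hC0 hz1 hz2 hb1 hb2 x hJ01 hJm m k
    have e4 := crossT2 hN hR1 hR2 h1 h2 hC0 hz1 hz2 hb1 hb2 x hJ01 hJm m k
    have e5 : 2 * (A m k * B) * (Jx * ∑ c ∈ s, a m k c) ≤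
        2 * H m * (C0 * errA f1 f2 (R1 + 2 * R2) m x) := by
      refine mul_le_mul ?_ e3 (mul_nonneg hJx0 hS0) (by linarith [hH0 m])
      linarith [hABH m k]
    have e6 : B ^ 2 * ∑ y ∈ (s ×ˢ s).filter (fun y => y.1 ≠ y.2), a m k y.1 * a m k y.2 ≤
        H m * (4 * C0 ^ 2 * errA f1 f2 (R1 + 2 * R2) m x) := by
      refine mul_le_mul (hBH m) e4 ?_ (hH0 m)
      exact Finset.sum_nonneg (fun y _ => mul_nonneg (ha0 m k _) (ha0 m k _))
    have e7 : (B * (∑ c ∈ s, a m k c) + Jx * A m k) ^ 2 =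
        Jx ^ 2 * (A m k) ^ 2 + B ^ 2 * (∑ c ∈ s, a m k c) ^ 2 +
          2 * (A m k * B) * (Jx * ∑ c ∈ s, a m k c) := by ring
    rw [e7, e2] at e1
    have e8 : B ^ 2 * (∑ c ∈ s, a m k c ^ 2 +
        ∑ y ∈ (s ×ˢ s).filter (fun y => y.1 ≠ y.2), a m k y.1 * a m k y.2) =
        B ^ 2 * (∑ c ∈ s, a m k c ^ 2) +
        B ^ 2 * ∑ y ∈ (s ×ˢ s).filter (fun y => y.1 ≠ y.2), a m k y.1 * a m k y.2 := by ring
    rw [e8] at e1
    nlinarith
  -- the three sums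
  have hI : ∑ m : Fin N, ∑ k : Fin 3, Jx ^ 2 * (A m k) ^ 2 ≤
      ∑ m : Fin N, wh (g3 u) u m x * (JA f1 f2 (Finset.univ.erase m) x) ^ 2 := by
    refine Finset.sum_le_sum (fun m _ => ?_)
    rw [← Finset.mul_sum, hA2 m, mul_comm]
    refine mul_le_mul_of_nonneg_left ?_ (hwh0 m)
    exact pow_le_pow_left₀ hJx0 (hJm _ _ (Finset.erase_subset _ _)) 2
  have hII : ∑ m : Fin N, ∑ k : Fin 3, B ^ 2 * (∑ c ∈ s, (a m k c) ^ 2) ≤
      (∑ i : Fin N, ∑ j ∈ Finset.Ioi i, wu u x *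
          ((N : ℝ) ^ 2 * (2 * g3r f1 ((N : ℝ) • (x i - x j)))
            * (JA f1 f2 (Finset.univ \ {i, j}) x) ^ 2))
      + (∑ i : Fin N, ∑ j ∈ Finset.Ioi i, ∑ k ∈ Finset.Ioi j, wu u x *
          ((N : ℝ) * g6r f2 (Real.sqrt N • (x i - x j, x i - x k))
            * (JA f1 f2 (Finset.univ \ {i, j, k}) x) ^ 2)) := by
    have e1 : ∑ m : Fin N, ∑ k : Fin 3, B ^ 2 * (∑ c ∈ s, (a m k c) ^ 2) =
        ∑ c ∈ s, wu u x * (Sq f1 f2 c x * (PC f1 f2 c x) ^ 2) := by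
      have e0 : ∀ m k, B ^ 2 * (∑ c ∈ s, (a m k c) ^ 2) =
          ∑ c ∈ s, wu u x * ((LC f1 f2 c x (wv m k)) ^ 2 * (PC f1 f2 c x) ^ 2) := by
        intro m k
        rw [hB2, Finset.mul_sum]
        refine Finset.sum_congr rfl (fun c _ => ?_)
        simp only [ha, mul_pow, sq_abs]
        ring
      simp only [e0]
      have e2 : ∀ m : Fin N, ∑ k : Fin 3, ∑ c ∈ s,
          wu u x * ((LC f1 f2 c x (wv m k)) ^ 2 * (PC f1 f2 c x) ^ 2) =
          ∑ c ∈ s, ∑ k : Fin 3, wu u x * ((LC f1 f2 c x (wv m k)) ^ 2 * (PC f1 f2 c x) ^ 2) :=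
        fun m => Finset.sum_comm
      simp only [e2]
      rw [Finset.sum_comm]
      refine Finset.sum_congr rfl (fun c hc => ?_)
      rw [← Sq_eq f1 f2 c hc x, Finset.sum_mul, Finset.mul_sum]
      refine Finset.sum_congr rfl (fun m _ => ?_)
      rw [Finset.sum_mul, Finset.mul_sum]
    have e3 : ∑ c ∈ s, wu u x * (Sq f1 f2 c x * (PC f1 f2 c x) ^ 2) ≤
        ∑ c ∈ s, wu u x * (Sq f1 f2 c x * (JA f1 f2 (Finset.univ \ VV c) x) ^ 2) := by
      refine Finset.sum_le_sum (fun c hc => mul_le_mul_of_nonneg_left ?_ hwu0)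
      have hSq0 : 0 ≤ Sq f1 f2 c x := by
        rw [← Sq_eq f1 f2 c hc x]
        exact Finset.sum_nonneg (fun _ _ => Finset.sum_nonneg (fun _ _ => sq_nonneg _))
      refine mul_le_mul_of_nonneg_left ?_ hSq0
      exact pow_le_pow_left₀ (PC_nonneg h1 h2 c x) (P_le h1 h2 c x hc) 2
    rw [e1]
    refine le_trans e3 (le_of_eq ?_)
    rw [hs, sA, Finset.sum_disjSum]
    congr 1
    · exact sum2 (fun i j => wu u x * ((N : ℝ) ^ 2 * (2 * g3r f1 ((N : ℝ) • (x i - x j)))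
            * (JA f1 f2 (Finset.univ \ {i, j}) x) ^ 2))
    · exact sum3 (fun i j k => wu u x *
          ((N : ℝ) * g6r f2 (Real.sqrt N • (x i - x j, x i - x k))
            * (JA f1 f2 (Finset.univ \ {i, j, k}) x) ^ 2))
  have hIII : ∑ m : Fin N, ∑ _k : Fin 3,
      H m * ((2 * C0 + 4 * C0 ^ 2) * errA f1 f2 (R1 + 2 * R2) m x) ≤
      (3 * (2 * C0 + 4 * C0 ^ 2) + 1) * ∑ m : Fin N,
        wh (fun z => g3 u z + ‖u z‖ ^ 2) u m x * errA f1 f2 (R1 + 2 * R2) m x := by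
    rw [Finset.mul_sum]
    refine Finset.sum_le_sum (fun m _ => ?_)
    rw [Finset.sum_const, Finset.card_univ, Fintype.card_fin, nsmul_eq_mul]
    have := mul_nonneg (hH0 m) (herr0 m)
    simp only [hH] at this ⊢
    push_cast
    nlinarith
  have hkin : kin (Psi N f1 f2 u) x = ∑ m : Fin N, ∑ k : Fin 3,
      ‖fderiv ℝ (Psi N f1 f2 u) x (wv m k)‖ ^ 2 := rfl
  rw [hkin]
  have htot := Finset.sum_le_sum (s := (Finset.univ : Finset (Fin N)))
    (fun m _ => Finset.sum_le_sum (s := (Finset.univ : Finset (Fin 3))) (fun k _ => hone m k))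
  simp only [Finset.sum_add_distrib] at htot
  linarith

end Pool.Agent.W724.TWB
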