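import Pool.Agent.W734.TWB.Stms

/-! TWB-PWK, part 1: clusters, the Jastrow factor as one product, sums over clusters -/

set_option autoImplicit false

noncomputable section

namespace Pool.Agent.W724.TWB

open MeasureTheory Set Filter Metric
open Pool.Agent.W734.TWB

/-- clusters -/
abbrev Cl (N : ℕ) := (Fin N × Fin N) ⊕ (Fin N × Fin N × Fin N)

/-- clusters in `A` -/
def sA {N : ℕ} (A : Finset (Fin N)) : Finset (Cl N) :=
  ((A ×ˢ A).filter (fun p => p.1 < p.2)).disjSum
    ((A ×ˢ A ×ˢ A).filter (fun p => p.1 < p.2.1 ∧ p.2.1 < p.2.2))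

/-- factor of a cluster -/
def FC {N : ℕ} (f1 : E3 → ℝ) (f2 : E3 × E3 → ℝ) (c : Cl N) (x : Cfg N) : ℝ :=
  match c with
  | Sum.inl p => f1 ((N : ℝ) • (x p.1 - x p.2))
  | Sum.inr p => f2 (Real.sqrt N • (x p.1 - x p.2.1, x p.1 - x p.2.2))

/-- particles of a cluster -/
def VV {N : ℕ} (c : Cl N) : Finset (Fin N) :=
  match c with
  | Sum.inl p => {p.1, p.2}
  | Sum.inr p => {p.1, p.2.1, p.2.2}

theorem prod2 {N : ℕ} (A : Finset (Fin N)) (g : Fin N → Fin N → ℝ) :
    ∏ i ∈ A, ∏ j ∈ A.filter (fun j => i < j), g i j =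
      ∏ p ∈ (A ×ˢ A).filter (fun p => p.1 < p.2), g p.1 p.2 := by
  rw [Finset.prod_filter, Finset.prod_product]
  refine Finset.prod_congr rfl (fun i _ => ?_)
  rw [Finset.prod_filter]

theorem prod3 {N : ℕ} (A : Finset (Fin N)) (g : Fin N → Fin N → Fin N → ℝ) :
    ∏ i ∈ A, ∏ j ∈ A.filter (fun j => i < j), ∏ k ∈ A.filter (fun k => j < k), g i j k =
      ∏ p ∈ (A ×ˢ A ×ˢ A).filter (fun p => p.1 < p.2.1 ∧ p.2.1 < p.2.2), g p.1 p.2.1 p.2.2 := by
  rw [Finset.prod_filter, Finset.prod_product]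
  refine Finset.prod_congr rfl (fun i _ => ?_)
  rw [Finset.prod_filter, Finset.prod_product]
  refine Finset.prod_congr rfl (fun j _ => ?_)
  rw [Finset.prod_filter]
  by_cases h : i < j
  · simp [h]
  · simp [h]

theorem sum2 {N : ℕ} (g : Fin N → Fin N → ℝ) :
    ∑ p ∈ ((Finset.univ : Finset (Fin N)) ×ˢ (Finset.univ : Finset (Fin N))).filter
      (fun p => p.1 < p.2), g p.1 p.2 = ∑ i : Fin N, ∑ j ∈ Finset.Ioi i, g i j := by
  rw [Finset.sum_filter, Finset.sum_product]
  refine Finset.sum_congr rfl (fun i _ => ?_)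
  rw [← Finset.sum_filter]
  refine Finset.sum_congr ?_ (fun _ _ => rfl)
  ext j
  simp

theorem sum3 {N : ℕ} (g : Fin N → Fin N → Fin N → ℝ) :
    ∑ p ∈ ((Finset.univ : Finset (Fin N)) ×ˢ (Finset.univ : Finset (Fin N)) ×ˢ
      (Finset.univ : Finset (Fin N))).filter (fun p => p.1 < p.2.1 ∧ p.2.1 < p.2.2),
        g p.1 p.2.1 p.2.2 =
      ∑ i : Fin N, ∑ j ∈ Finset.Ioi i, ∑ k ∈ Finset.Ioi j, g i j k := by
  rw [Finset.sum_filter, Finset.sum_product]
  refine Finset.sum_congr rfl (fun i _ => ?_)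
  rw [Finset.sum_product]
  have h1 : ∀ j : Fin N, ∑ k ∈ Finset.Ioi j, g i j k = ∑ k : Fin N, if j < k then g i j k else 0 := by
    intro j
    rw [← Finset.sum_filter]
    refine Finset.sum_congr ?_ (fun _ _ => rfl)
    ext k
    simp
  have h2 : ∑ j ∈ Finset.Ioi i, ∑ k ∈ Finset.Ioi j, g i j k =
      ∑ j : Fin N, if i < j then ∑ k ∈ Finset.Ioi j, g i j k else 0 := by
    rw [← Finset.sum_filter]
    refine Finset.sum_congr ?_ (fun _ _ => rfl)
    ext k
    simp
  rw [h2]
  refine Finset.sum_congr rfl (fun j _ => ?_)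
  by_cases h : i < j
  · simp [h, h1 j]
  · simp [h]

theorem JA_eq {N : ℕ} (f1 : E3 → ℝ) (f2 : E3 × E3 → ℝ) (A : Finset (Fin N)) (x : Cfg N) :
    JA f1 f2 A x = ∏ c ∈ sA A, FC f1 f2 c x := by
  rw [JA, sA, Finset.prod_disjSum, prod2 A (fun i j => f1 ((N : ℝ) • (x i - x j))),
    prod3 A (fun i j k => f2 (Real.sqrt N • (x i - x j, x i - x k)))]
  rfl

theorem FC_mem {N : ℕ} {R1 R2 : ℝ} {f1 : E3 → ℝ} {f2 : E3 × E3 → ℝ} (h1 : PairF R1 f1)
    (h2 : TripF R2 f2) (c : Cl N) (x : Cfg N) : 0 ≤ FC f1 f2 c x ∧ FC f1 f2 c x ≤ 1 := by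
  rcases c with p | p
  · exact ⟨h1.nonneg _, h1.le_one _⟩
  · exact ⟨h2.nonneg _, h2.le_one _⟩

theorem mem_sA {N : ℕ} (A : Finset (Fin N)) (c : Cl N) :
    c ∈ sA A ↔ c ∈ sA (Finset.univ : Finset (Fin N)) ∧ VV c ⊆ A := by
  rcases c with ⟨i, j⟩ | ⟨i, j, k⟩
  · simp only [sA, VV, Finset.inl_mem_disjSum, Finset.mem_filter, Finset.mem_product,
      Finset.mem_univ, true_and, Finset.insert_subset_iff, Finset.singleton_subset_iff]
    tauto
  · simp only [sA, VV, Finset.inr_mem_disjSum, Finset.mem_filter, Finset.mem_product,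
      Finset.mem_univ, true_and, Finset.insert_subset_iff, Finset.singleton_subset_iff]
    tauto

theorem P_le {N : ℕ} {R1 R2 : ℝ} {f1 : E3 → ℝ} {f2 : E3 × E3 → ℝ} (h1 : PairF R1 f1)
    (h2 : TripF R2 f2) (c : Cl N) (x : Cfg N) (hc : c ∈ sA (Finset.univ : Finset (Fin N))) :
    ∏ c' ∈ (sA (Finset.univ : Finset (Fin N))).erase c, FC f1 f2 c' x ≤
      JA f1 f2 (Finset.univ \ VV c) x := by
  rw [JA_eq]
  have hsub : sA (Finset.univ \ VV c) ⊆ (sA (Finset.univ : Finset (Fin N))).erase c := by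
    intro d hd
    have hd' := (mem_sA _ d).mp hd
    rw [Finset.mem_erase]
    refine ⟨?_, hd'.1⟩
    rintro rfl
    have hne : (VV d).Nonempty := by
      rcases d with p | p
      · exact ⟨p.1, by simp [VV]⟩
      · exact ⟨p.1, by simp [VV]⟩
    obtain ⟨y, hy⟩ := hne
    have := hd'.2 hy
    rw [Finset.mem_sdiff] at this
    exact this.2 hy
  rw [← Finset.prod_sdiff hsub]
  have h3 : ∏ d ∈ (sA (Finset.univ : Finset (Fin N))).erase c \ sA (Finset.univ \ VV c),
      FC f1 f2 d x ≤ 1 :=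
    Finset.prod_le_one (fun d _ => (FC_mem h1 h2 d x).1) (fun d _ => (FC_mem h1 h2 d x).2)
  have h4 : 0 ≤ ∏ d ∈ sA (Finset.univ \ VV c), FC f1 f2 d x :=
    Finset.prod_nonneg (fun d _ => (FC_mem h1 h2 d x).1)
  exact mul_le_of_le_one_left h4 h3

/-- the other particles of a cluster containing `m`; for a pair the same one twice -/
def oth {N : ℕ} (m : Fin N) (c : Cl N) : Fin N × Fin N :=
  match c with
  | Sum.inl p => if p.1 = m then (p.2, p.2) else (p.1, p.1)
  | Sum.inr p => if p.1 = m then (p.2.1, p.2.2) else if p.2.1 = m then (p.1, p.2.2)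
      else (p.1, p.2.1)

/-- possible values of `oth m` -/
def DD' {N : ℕ} (m : Fin N) : Finset (Fin N × Fin N) :=
  Finset.univ.filter (fun d => d.1 ≤ d.2 ∧ d.1 ≠ m ∧ d.2 ≠ m)

theorem oth_mem {N : ℕ} (m : Fin N) (c : Cl N) (hc : c ∈ sA (Finset.univ : Finset (Fin N)))
    (hm : m ∈ VV c) : oth m c ∈ DD' m ∧
      insert m ({(oth m c).1, (oth m c).2} : Finset (Fin N)) = VV c := by
  rcases c with ⟨i, j⟩ | ⟨i, j, k⟩
  · simp only [sA, Finset.inl_mem_disjSum, Finset.mem_filter, Finset.mem_product,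
      Finset.mem_univ, true_and] at hc
    simp only [VV, Finset.mem_insert, Finset.mem_singleton] at hm
    rcases hm with rfl | rfl
    · constructor
      · simp only [oth, if_true, DD', Finset.mem_filter, Finset.mem_univ, true_and, le_refl]
        exact ⟨hc.ne', hc.ne'⟩
      · simp [oth, VV]
    · have hne : i ≠ m := hc.ne
      constructor
      · simp only [oth, hne, if_false, DD', Finset.mem_filter, Finset.mem_univ, true_and, le_refl]
        exact ⟨hne, hne⟩
      · simp only [oth, hne, if_false, VV]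
        ext z
        simp only [Finset.mem_insert, Finset.mem_singleton]
        tauto
  · simp only [sA, Finset.inr_mem_disjSum, Finset.mem_filter, Finset.mem_product,
      Finset.mem_univ, true_and] at hc
    simp only [VV, Finset.mem_insert, Finset.mem_singleton] at hm
    obtain ⟨h1, h2⟩ := hc
    rcases hm with rfl | rfl | rfl
    · constructor
      · simp only [oth, if_true, DD', Finset.mem_filter, Finset.mem_univ, true_and]
        exact ⟨h2.le, h1.ne', (h1.trans h2).ne'⟩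
      · simp [oth, VV]
    · have hne : i ≠ m := h1.ne
      constructor
      · simp only [oth, hne, if_false, if_true, DD', Finset.mem_filter, Finset.mem_univ, true_and]
        exact ⟨(h1.trans h2).le, hne, h2.ne'⟩
      · simp only [oth, hne, if_false, if_true, VV]
        ext z
        simp only [Finset.mem_insert, Finset.mem_singleton]
        tauto
    · have hne : i ≠ m := (h1.trans h2).ne
      have hne2 : j ≠ m := h2.ne
      constructor
      · simp only [oth, hne, hne2, if_false, DD', Finset.mem_filter, Finset.mem_univ, true_and]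
        exact ⟨h1.le, hne, hne2⟩
      · simp only [oth, hne, hne2, if_false, VV]
        ext z
        simp only [Finset.mem_insert, Finset.mem_singleton]
        tauto

theorem oth_inj {N : ℕ} (m : Fin N) (c c' : Cl N)
    (hc : c ∈ sA (Finset.univ : Finset (Fin N))) (hc' : c' ∈ sA (Finset.univ : Finset (Fin N)))
    (hm : m ∈ VV c) (hm' : m ∈ VV c') (h : oth m c = oth m c') : c = c' := by
  have e1 := (oth_mem m c hc hm).2
  have e2 := (oth_mem m c' hc' hm').2
  rw [h] at e1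
  have hV : VV c = VV c' := e1.symm.trans e2
  rcases c with ⟨i, j⟩ | ⟨i, j, k⟩
  · simp only [sA, Finset.inl_mem_disjSum, Finset.mem_filter, Finset.mem_product,
      Finset.mem_univ, true_and] at hc
    rcases c' with ⟨i', j'⟩ | ⟨i', j', k'⟩
    · simp only [sA, Finset.inl_mem_disjSum, Finset.mem_filter, Finset.mem_product,
        Finset.mem_univ, true_and] at hc'
      simp only [VV] at hV
      have a1 : i ∈ ({i', j'} : Finset (Fin N)) := by rw [← hV]; simp
      have a2 : j ∈ ({i', j'} : Finset (Fin N)) := by rw [← hV]; simp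
      simp only [Finset.mem_insert, Finset.mem_singleton] at a1 a2
      rcases a1 with rfl | rfl <;> rcases a2 with rfl | rfl
      · exact absurd hc (lt_irrefl _)
      · rfl
      · exact absurd (hc.trans hc') (lt_irrefl _)
      · exact absurd hc (lt_irrefl _)
    · exfalso
      simp only [sA, Finset.inr_mem_disjSum, Finset.mem_filter, Finset.mem_product,
        Finset.mem_univ, true_and] at hc'
      have hcard := congrArg Finset.card hV
      simp only [VV] at hcard
      rw [Finset.card_pair hc.ne, Finset.card_eq_three.mpr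
        ⟨i', j', k', hc'.1.ne, (hc'.1.trans hc'.2).ne, hc'.2.ne, rfl⟩] at hcard
      omega
  · simp only [sA, Finset.inr_mem_disjSum, Finset.mem_filter, Finset.mem_product,
      Finset.mem_univ, true_and] at hc
    obtain ⟨h1, h2⟩ := hc
    rcases c' with ⟨i', j'⟩ | ⟨i', j', k'⟩
    · exfalso
      simp only [sA, Finset.inl_mem_disjSum, Finset.mem_filter, Finset.mem_product,
        Finset.mem_univ, true_and] at hc'
      have hcard := congrArg Finset.card hV
      simp only [VV] at hcard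
      rw [Finset.card_pair hc'.ne, Finset.card_eq_three.mpr
        ⟨i, j, k, h1.ne, (h1.trans h2).ne, h2.ne, rfl⟩] at hcard
      omega
    · simp only [sA, Finset.inr_mem_disjSum, Finset.mem_filter, Finset.mem_product,
        Finset.mem_univ, true_and] at hc'
      obtain ⟨h1', h2'⟩ := hc'
      simp only [VV] at hV
      have a1 : i ∈ ({i', j', k'} : Finset (Fin N)) := by rw [← hV]; simp
      have a2 : j ∈ ({i', j', k'} : Finset (Fin N)) := by rw [← hV]; simp
      have a3 : k ∈ ({i', j', k'} : Finset (Fin N)) := by rw [← hV]; simp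
      simp only [Finset.mem_insert, Finset.mem_singleton] at a1 a2 a3
      simp only [Fin.lt_def] at h1 h2 h1' h2'
      simp only [Fin.ext_iff] at a1 a2 a3
      have b1 : i = i' := Fin.ext (by omega)
      have b2 : j = j' := Fin.ext (by omega)
      have b3 : k = k' := Fin.ext (by omega)
      rw [b1, b2, b3]

theorem nr_nonneg {N : ℕ} (r : ℝ) (m a : Fin N) (x : Cfg N) : 0 ≤ nr r m a x := by
  unfold nr
  split_ifs <;> norm_num

theorem nr_le_one {N : ℕ} (r : ℝ) (m a : Fin N) (x : Cfg N) : nr r m a x ≤ 1 := by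
  unfold nr
  split_ifs <;> norm_num

/-- size of the gradient of the factor of a cluster with other particles `d` -/
def bet {N : ℕ} (R : ℝ) (m : Fin N) (x : Cfg N) (d : Fin N × Fin N) : ℝ :=
  if d.1 = d.2 then (N : ℝ) * nr (R / N) m d.1 x
  else Real.sqrt N * (nr (R / Real.sqrt N) m d.1 x * nr (R / Real.sqrt N) m d.2 x)

theorem bet_nonneg {N : ℕ} (R : ℝ) (m : Fin N) (x : Cfg N) (d : Fin N × Fin N) :
    0 ≤ bet R m x d := by
  unfold bet
  split_ifs
  · exact mul_nonneg (Nat.cast_nonneg _) (nr_nonneg _ _ _ _)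
  · exact mul_nonneg (Real.sqrt_nonneg _) (mul_nonneg (nr_nonneg _ _ _ _) (nr_nonneg _ _ _ _))

theorem sum_le_of_inj {α β : Type*} [DecidableEq β] (s : Finset α) (t : Finset β) (e : α → β)
    (g : β → ℝ) (h1 : ∀ a ∈ s, e a ∈ t) (h2 : ∀ a ∈ s, ∀ b ∈ s, e a = e b → a = b)
    (h3 : ∀ y ∈ t, 0 ≤ g y) : ∑ a ∈ s, g (e a) ≤ ∑ y ∈ t, g y := by
  rw [← Finset.sum_image (f := g) (g := e) (s := s) (fun a ha b hb h => h2 a ha b hb h)]
  refine Finset.sum_le_sum_of_subset_of_nonneg ?_ (fun y hy _ => h3 y hy)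
  intro y hy
  rw [Finset.mem_image] at hy
  obtain ⟨a, ha, rfl⟩ := hy
  exact h1 a ha

theorem errT_term_nonneg {N : ℕ} (f1 : E3 → ℝ) (f2 : E3 × E3 → ℝ) (R : ℝ) {q : ℕ}
    (t : Fin q → Bool) (m : Fin N) (x : Cfg N) (a : Fin q → Fin N) :
    0 ≤ (∏ l, nr (rad R N (t l)) m (a l) x)
      * (JA f1 f2 (Finset.univ \ insert m (Finset.univ.image a)) x) ^ 2 :=
  mul_nonneg (Finset.prod_nonneg (fun _ _ => nr_nonneg _ _ _ _)) (sq_nonneg _)

theorem errT_nonneg {N : ℕ} (f1 : E3 → ℝ) (f2 : E3 × E3 → ℝ) (R : ℝ) {q : ℕ}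
    (t : Fin q → Bool) (m : Fin N) (x : Cfg N) : 0 ≤ errT f1 f2 R q t m x :=
  Finset.sum_nonneg (fun _ _ => errT_term_nonneg f1 f2 R t m x _)

theorem cls_bound {N : ℕ} (f1 : E3 → ℝ) (f2 : E3 × E3 → ℝ) (R : ℝ) {q : ℕ}
    (t : Fin q → Bool) (m : Fin N) (x : Cfg N) {α : Type*} (S : Finset α) (g : α → ℝ)
    (φ : α → Fin q → Fin N) (p : α → Prop) [DecidablePred p] (K : ℝ) (hK : 0 ≤ K)
    (h1 : ∀ y ∈ S, p y → Function.Injective (φ y) ∧ ∀ l, φ y l ≠ m)
    (h2 : ∀ y ∈ S, p y → ∀ z ∈ S, p z → φ y = φ z → y = z)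
    (h3 : ∀ y ∈ S, p y → g y ≤ K * ((∏ l, nr (rad R N (t l)) m (φ y l) x)
      * (JA f1 f2 (Finset.univ \ insert m (Finset.univ.image (φ y))) x) ^ 2)) :
    ∑ y ∈ S.filter p, g y ≤ K * errT f1 f2 R q t m x := by
  have e1 : ∑ y ∈ S.filter p, g y ≤ K * ∑ y ∈ S.filter p,
      ((∏ l, nr (rad R N (t l)) m (φ y l) x)
        * (JA f1 f2 (Finset.univ \ insert m (Finset.univ.image (φ y))) x) ^ 2) := by
    rw [Finset.mul_sum]
    refine Finset.sum_le_sum (fun y hy => ?_)
    rw [Finset.mem_filter] at hy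
    exact h3 y hy.1 hy.2
  refine le_trans e1 (mul_le_mul_of_nonneg_left ?_ hK)
  unfold errT
  refine sum_le_of_inj (S.filter p) _ φ (fun a => (∏ l, nr (rad R N (t l)) m (a l) x)
      * (JA f1 f2 (Finset.univ \ insert m (Finset.univ.image a)) x) ^ 2) ?_ ?_ ?_
  · intro y hy
    rw [Finset.mem_filter] at hy
    rw [Finset.mem_filter]
    exact ⟨Finset.mem_univ _, h1 y hy.1 hy.2⟩
  · intro y hy z hz h
    rw [Finset.mem_filter] at hy hz
    exact h2 y hy.1 hy.2 z hz.1 hz.2 h
  · intro a _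
    exact errT_term_nonneg f1 f2 R t m x a

theorem cover_sum {α : Type*} (S : Finset α) (g : α → ℝ) (hg : ∀ y ∈ S, 0 ≤ g y) (n : ℕ)
    (p : ℕ → α → Prop) [∀ i, DecidablePred (p i)] (h : ∀ y ∈ S, ∃ i < n, p i y) :
    ∑ y ∈ S, g y ≤ ∑ i ∈ Finset.range n, ∑ y ∈ S.filter (p i), g y := by
  have e1 : ∀ i, ∑ y ∈ S.filter (p i), g y = ∑ y ∈ S, if p i y then g y else 0 := by
    intro i
    rw [Finset.sum_filter]
  simp only [e1]
  rw [Finset.sum_comm]
  refine Finset.sum_le_sum (fun y hy => ?_)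
  obtain ⟨i, hi, hp⟩ := h y hy
  have e3 := Finset.single_le_sum (f := fun i => if p i y then g y else 0)
    (s := Finset.range n) (fun j _ => by
      split_ifs
      · exact hg y hy
      · exact le_rfl) (Finset.mem_range.mpr hi)
  simp only [if_pos hp] at e3
  exact e3

end Pool.Agent.W724.TWB
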