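import Pool.Agent.W724.TWB.Pwk1

/-! TWB-PWK, part 2: the double sums over clusters are bounded by `errA` -/

set_option autoImplicit false

noncomputable section

namespace Pool.Agent.W724.TWB

open MeasureTheory Set Filter Metric
open Pool.Agent.W734.TWB

theorem img1 {N : ℕ} (a : Fin N) : (Finset.univ : Finset (Fin 1)).image ![a] = {a} := by
  ext z
  simp [eq_comm]

theorem img2 {N : ℕ} (a b : Fin N) :
    (Finset.univ : Finset (Fin 2)).image ![a, b] = {a, b} := by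
  ext z
  simp only [Finset.mem_image, Finset.mem_univ, true_and, Fin.exists_fin_two,
    Matrix.cons_val_zero, Matrix.cons_val_one, Finset.mem_insert, Finset.mem_singleton]
  tauto

theorem img3 {N : ℕ} (a b c : Fin N) :
    (Finset.univ : Finset (Fin 3)).image ![a, b, c] = {a, b, c} := by
  ext z
  simp only [Finset.mem_image, Finset.mem_univ, true_and, Finset.mem_insert,
    Finset.mem_singleton]
  constructor
  · rintro ⟨l, rfl⟩
    fin_cases l <;> simp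
  · rintro (rfl | rfl | rfl)
    · exact ⟨0, rfl⟩
    · exact ⟨1, rfl⟩
    · exact ⟨2, rfl⟩

theorem img4 {N : ℕ} (a b c d : Fin N) :
    (Finset.univ : Finset (Fin 4)).image ![a, b, c, d] = {a, b, c, d} := by
  ext z
  simp only [Finset.mem_image, Finset.mem_univ, true_and, Finset.mem_insert,
    Finset.mem_singleton]
  constructor
  · rintro ⟨l, rfl⟩
    fin_cases l <;> simp
  · rintro (rfl | rfl | rfl | rfl)
    · exact ⟨0, rfl⟩
    · exact ⟨1, rfl⟩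
    · exact ⟨2, rfl⟩
    · exact ⟨3, rfl⟩

theorem inj1 {N : ℕ} (m a : Fin N) (h : a ≠ m) :
    Function.Injective ![a] ∧ ∀ l, (![a] : Fin 1 → Fin N) l ≠ m := by
  refine ⟨fun i j _ => Subsingleton.elim i j, fun l => ?_⟩
  fin_cases l
  exact h

theorem inj2 {N : ℕ} (m a b : Fin N) (ha : a ≠ m) (hb : b ≠ m) (hab : a ≠ b) :
    Function.Injective ![a, b] ∧ ∀ l, (![a, b] : Fin 2 → Fin N) l ≠ m := by
  have hba := hab.symm
  constructor
  · intro i j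
    fin_cases i <;> fin_cases j <;> simp [hab, hba]
  · intro l
    fin_cases l <;> simp [ha, hb]

theorem inj3 {N : ℕ} (m a b c : Fin N) (ha : a ≠ m) (hb : b ≠ m) (hc : c ≠ m) (hab : a ≠ b)
    (hac : a ≠ c) (hbc : b ≠ c) :
    Function.Injective ![a, b, c] ∧ ∀ l, (![a, b, c] : Fin 3 → Fin N) l ≠ m := by
  have hba := hab.symm
  have hca := hac.symm
  have hcb := hbc.symm
  constructor
  · intro i j
    fin_cases i <;> fin_cases j <;> simp [hab, hba, hac, hca, hbc, hcb]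
  · intro l
    fin_cases l <;> simp [ha, hb, hc]

theorem inj4 {N : ℕ} (m a b c d : Fin N) (ha : a ≠ m) (hb : b ≠ m) (hc : c ≠ m) (hd : d ≠ m)
    (hab : a ≠ b) (hac : a ≠ c) (had : a ≠ d) (hbc : b ≠ c) (hbd : b ≠ d) (hcd : c ≠ d) :
    Function.Injective ![a, b, c, d] ∧ ∀ l, (![a, b, c, d] : Fin 4 → Fin N) l ≠ m := by
  have hba := hab.symm
  have hca := hac.symm
  have hcb := hbc.symm
  have hda := had.symm
  have hdb := hbd.symm
  have hdc := hcd.symm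
  constructor
  · intro i j
    fin_cases i <;> fin_cases j <;>
      simp [hab, hba, hac, hca, hbc, hcb, had, hda, hbd, hdb, hcd, hdc]
  · intro l
    fin_cases l <;> simp [ha, hb, hc, hd]

theorem vec2 {α : Type*} {a b a' b' : α} (h : ![a, b] = ![a', b']) : a = a' ∧ b = b' :=
  ⟨congrFun h 0, congrFun h 1⟩

theorem vec3 {α : Type*} {a b c a' b' c' : α} (h : ![a, b, c] = ![a', b', c']) :
    a = a' ∧ b = b' ∧ c = c' :=
  ⟨congrFun h 0, congrFun h 1, congrFun h 2⟩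

theorem vec4 {α : Type*} {a b c d a' b' c' d' : α} (h : ![a, b, c, d] = ![a', b', c', d']) :
    a = a' ∧ b = b' ∧ c = c' ∧ d = d' :=
  ⟨congrFun h 0, congrFun h 1, congrFun h 2, congrFun h 3⟩

variable {N : ℕ} (f1 : E3 → ℝ) (f2 : E3 × E3 → ℝ) (R : ℝ) (m : Fin N) (x : Cfg N)

/-- first order sum -/
theorem T1_bound : ∑ d ∈ DD' m, bet R m x d *
      (JA f1 f2 (Finset.univ \ insert m ({d.1, d.2} : Finset (Fin N))) x) ^ 2 ≤
    (N : ℝ) * errT f1 f2 R 1 ![true] m x + Real.sqrt N * errT f1 f2 R 2 ![false, false] m x := by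
  set g : Fin N × Fin N → ℝ := fun d => bet R m x d *
      (JA f1 f2 (Finset.univ \ insert m ({d.1, d.2} : Finset (Fin N))) x) ^ 2 with hg
  rw [← Finset.sum_filter_add_sum_filter_not (DD' m) (fun d => d.1 = d.2) g]
  refine add_le_add ?_ ?_
  · refine cls_bound f1 f2 R ![true] m x (DD' m) g (fun d => ![d.1]) (fun d => d.1 = d.2) (N : ℝ)
      (Nat.cast_nonneg _) ?_ ?_ ?_
    · intro d hd _
      simp only [DD', Finset.mem_filter, Finset.mem_univ, true_and] at hd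
      exact inj1 m d.1 hd.2.1
    · intro d _ hd2 d' _ hd2' h
      have h0 : d.1 = d'.1 := congrFun h 0
      exact Prod.ext h0 (by rw [← hd2, ← hd2', h0])
    · intro d _ hd2
      simp only [hg, bet, hd2, if_true, img1, Fin.prod_univ_one, Matrix.cons_val_zero, rad,
        Finset.insert_eq_of_mem (Finset.mem_singleton_self _)]
      apply le_of_eq
      ring
  · refine cls_bound f1 f2 R ![false, false] m x (DD' m) g (fun d => ![d.1, d.2])
      (fun d => ¬ d.1 = d.2) (Real.sqrt N) (Real.sqrt_nonneg _) ?_ ?_ ?_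
    · intro d hd hne
      simp only [DD', Finset.mem_filter, Finset.mem_univ, true_and] at hd
      exact inj2 m d.1 d.2 hd.2.1 hd.2.2 hne
    · intro d _ _ d' _ _ h
      obtain ⟨h1, h2⟩ := vec2 h
      exact Prod.ext h1 h2
    · intro d _ hne
      simp only [hg, bet, hne, if_false, img2, Fin.prod_univ_two, Matrix.cons_val_zero,
        Matrix.cons_val_one, rad]
      apply le_of_eq
      simp
      ring

/-- summand of the second order sum -/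
def g2 (y : (Fin N × Fin N) × (Fin N × Fin N)) : ℝ :=
  bet R m x y.1 * bet R m x y.2 *
    (JA f1 f2 (Finset.univ \ insert m ({y.1.1, y.1.2, y.2.1, y.2.2} : Finset (Fin N))) x) ^ 2

theorem g2_nonneg (y : (Fin N × Fin N) × (Fin N × Fin N)) : 0 ≤ g2 f1 f2 R m x y :=
  mul_nonneg (mul_nonneg (bet_nonneg _ _ _ _) (bet_nonneg _ _ _ _)) (sq_nonneg _)

/-- the classes -/
def pc (i : ℕ) (y : (Fin N × Fin N) × (Fin N × Fin N)) : Prop :=
  match i with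
  | 0 => y.1.1 = y.1.2 ∧ y.2.1 = y.2.2
  | 1 => y.1.1 = y.1.2 ∧ y.2.1 ≠ y.2.2 ∧ y.1.1 = y.2.1
  | 2 => y.1.1 = y.1.2 ∧ y.2.1 ≠ y.2.2 ∧ y.1.1 = y.2.2
  | 3 => y.1.1 = y.1.2 ∧ y.2.1 ≠ y.2.2 ∧ y.1.1 ≠ y.2.1 ∧ y.1.1 ≠ y.2.2
  | 4 => y.2.1 = y.2.2 ∧ y.1.1 ≠ y.1.2 ∧ y.2.1 = y.1.1
  | 5 => y.2.1 = y.2.2 ∧ y.1.1 ≠ y.1.2 ∧ y.2.1 = y.1.2
  | 6 => y.2.1 = y.2.2 ∧ y.1.1 ≠ y.1.2 ∧ y.2.1 ≠ y.1.1 ∧ y.2.1 ≠ y.1.2
  | 7 => y.1.1 ≠ y.1.2 ∧ y.2.1 ≠ y.2.2 ∧ y.1.1 = y.2.1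
  | 8 => y.1.1 ≠ y.1.2 ∧ y.2.1 ≠ y.2.2 ∧ y.1.1 = y.2.2
  | 9 => y.1.1 ≠ y.1.2 ∧ y.2.1 ≠ y.2.2 ∧ y.1.2 = y.2.1
  | 10 => y.1.1 ≠ y.1.2 ∧ y.2.1 ≠ y.2.2 ∧ y.1.2 = y.2.2
  | _ => y.1.1 ≠ y.1.2 ∧ y.2.1 ≠ y.2.2 ∧ y.1.1 ≠ y.2.1 ∧ y.1.1 ≠ y.2.2 ∧ y.1.2 ≠ y.2.1 ∧
      y.1.2 ≠ y.2.2

instance (i : ℕ) : DecidablePred (pc (N := N) i) := fun _ => Classical.propDecidable _

/-- pairs of different elements of `DD' m` -/
def SS (m : Fin N) : Finset ((Fin N × Fin N) × (Fin N × Fin N)) :=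
  (DD' m ×ˢ DD' m).filter (fun y => y.1 ≠ y.2)

theorem mem_SS (m : Fin N) (y : (Fin N × Fin N) × (Fin N × Fin N)) (hy : y ∈ SS m) :
    y.1.1 ≤ y.1.2 ∧ y.1.1 ≠ m ∧ y.1.2 ≠ m ∧ y.2.1 ≤ y.2.2 ∧ y.2.1 ≠ m ∧ y.2.2 ≠ m ∧
      ¬ (y.1.1 = y.2.1 ∧ y.1.2 = y.2.2) := by
  simp only [SS, DD', Finset.mem_filter, Finset.mem_product, Finset.mem_univ, true_and] at hy
  obtain ⟨⟨⟨h1, h2, h3⟩, h4, h5, h6⟩, h7⟩ := hy
  refine ⟨h1, h2, h3, h4, h5, h6, fun h => h7 (Prod.ext h.1 h.2)⟩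

theorem cover_pc (y : (Fin N × Fin N) × (Fin N × Fin N)) : ∃ i < 12, pc i y := by
  by_cases h1 : y.1.1 = y.1.2
  · by_cases h2 : y.2.1 = y.2.2
    · exact ⟨0, by norm_num, h1, h2⟩
    · by_cases h3 : y.1.1 = y.2.1
      · exact ⟨1, by norm_num, h1, h2, h3⟩
      · by_cases h4 : y.1.1 = y.2.2
        · exact ⟨2, by norm_num, h1, h2, h4⟩
        · exact ⟨3, by norm_num, h1, h2, h3, h4⟩
  · by_cases h2 : y.2.1 = y.2.2
    · by_cases h3 : y.2.1 = y.1.1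
      · exact ⟨4, by norm_num, h2, h1, h3⟩
      · by_cases h4 : y.2.1 = y.1.2
        · exact ⟨5, by norm_num, h2, h1, h4⟩
        · exact ⟨6, by norm_num, h2, h1, h3, h4⟩
    · by_cases h3 : y.1.1 = y.2.1
      · exact ⟨7, by norm_num, h1, h2, h3⟩
      · by_cases h4 : y.1.1 = y.2.2
        · exact ⟨8, by norm_num, h1, h2, h4⟩
        · by_cases h5 : y.1.2 = y.2.1
          · exact ⟨9, by norm_num, h1, h2, h5⟩
          · by_cases h6 : y.1.2 = y.2.2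
            · exact ⟨10, by norm_num, h1, h2, h6⟩
            · exact ⟨11, by norm_num, h1, h2, h3, h4, h5, h6⟩

end Pool.Agent.W724.TWB
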