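import Pool.Agent.W724.TWB.Pwk2

/-! TWB-PWK, part 3: the twelve classes -/

set_option autoImplicit false

noncomputable section

namespace Pool.Agent.W724.TWB

open MeasureTheory Set Filter Metric
open Pool.Agent.W734.TWB

theorem fin_step {A B J K P : ℝ} (h : A * B ≤ K * P) (hJ : 0 ≤ J) : A * B * J ≤ K * (P * J) := by
  have := mul_le_mul_of_nonneg_right h hJ
  linarith [this, mul_assoc K P J]

theorem bet_diag {N : ℕ} (R : ℝ) (m : Fin N) (x : Cfg N) (a : Fin N) :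
    bet R m x (a, a) = (N : ℝ) * nr (R / N) m a x := by
  simp [bet]

theorem bet_off {N : ℕ} (R : ℝ) (m : Fin N) (x : Cfg N) (a b : Fin N) (h : a ≠ b) :
    bet R m x (a, b) =
      Real.sqrt N * (nr (R / Real.sqrt N) m a x * nr (R / Real.sqrt N) m b x) := by
  simp [bet, h]

theorem sc_a {n s p t t' : ℝ} (hn : 0 ≤ n) (hs : 0 ≤ s) (hp : 0 ≤ p) (_ht : 0 ≤ t) (ht1 : t ≤ 1)
    (ht' : 0 ≤ t') : n * p * (s * (t * t')) ≤ n * s * (p * t') := by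
  have h1 : 0 ≤ n * s * (p * t') := by positivity
  have h2 : n * p * (s * (t * t')) = n * s * (p * t') * t := by ring
  rw [h2]
  exact mul_le_of_le_one_right h1 ht1

theorem sc_b {s n p q r : ℝ} (hs : s * s = n) (hn : 0 ≤ n) (hp : 0 ≤ p) (hp1 : p ≤ 1)
    (hq : 0 ≤ q) (hr : 0 ≤ r) : s * (p * q) * (s * (p * r)) ≤ n * (p * q * r) := by
  have h2 : s * (p * q) * (s * (p * r)) = n * (p * q * r) * p := by
    rw [← hs]
    ring
  have h1 : 0 ≤ n * (p * q * r) := by positivity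
  rw [h2]
  exact mul_le_of_le_one_right h1 hp1

variable {N : ℕ} (f1 : E3 → ℝ) (f2 : E3 × E3 → ℝ) (R : ℝ) (m : Fin N) (x : Cfg N)

theorem c0 : ∑ y ∈ (SS m).filter (pc 0), g2 f1 f2 R m x y ≤
    (N : ℝ) ^ 2 * errT f1 f2 R 2 ![true, true] m x := by
  refine cls_bound f1 f2 R ![true, true] m x (SS m) (g2 f1 f2 R m x)
    (fun y => ![y.1.1, y.2.1]) (pc 0) ((N : ℝ) ^ 2) (by positivity) ?_ ?_ ?_
  · rintro ⟨⟨a, b⟩, a', b'⟩ hy ⟨h1, h2⟩
    have hm := mem_SS m _ hy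
    dsimp only at h1 h2 hm ⊢
    subst h1 h2
    exact inj2 m a a' hm.2.1 hm.2.2.2.2.1 (fun h => hm.2.2.2.2.2.2 ⟨h, h⟩)
  · rintro ⟨⟨a, b⟩, a', b'⟩ _ ⟨h1, h2⟩ ⟨⟨c, d⟩, c', d'⟩ _ ⟨h3, h4⟩ h
    obtain ⟨e1, e2⟩ := vec2 h
    dsimp only at h1 h2 h3 h4 e1 e2 ⊢
    grind
  · rintro ⟨⟨a, b⟩, a', b'⟩ hy ⟨h1, h2⟩
    dsimp only at h1 h2 ⊢
    subst h1 h2
    have hset : insert m ({a, a, a', a'} : Finset (Fin N)) = insert m {a, a'} := by
      ext z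
      simp only [Finset.mem_insert, Finset.mem_singleton]
      tauto
    rw [g2, hset, img2]
    refine fin_step ?_ (sq_nonneg _)
    rw [bet_diag, bet_diag]
    simp only [Fin.prod_univ_two, Matrix.cons_val_zero, Matrix.cons_val_one, rad, if_true]
    apply le_of_eq
    ring

theorem c1 : ∑ y ∈ (SS m).filter (pc 1), g2 f1 f2 R m x y ≤
    ((N : ℝ) * Real.sqrt N) * errT f1 f2 R 2 ![true, false] m x := by
  refine cls_bound f1 f2 R ![true, false] m x (SS m) (g2 f1 f2 R m x)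
    (fun y => ![y.1.1, y.2.2]) (pc 1) ((N : ℝ) * Real.sqrt N) (by positivity) ?_ ?_ ?_
  · rintro ⟨⟨a, b⟩, a', b'⟩ hy ⟨h1, h2, h3⟩
    have hm := mem_SS m _ hy
    dsimp only at h1 h2 h3 hm ⊢
    refine inj2 m a b' hm.2.1 hm.2.2.2.2.2.1 (fun h => h2 (by rw [← h3, h]))
  · rintro ⟨⟨a, b⟩, a', b'⟩ _ ⟨h1, h2, h5⟩ ⟨⟨c, d⟩, c', d'⟩ _ ⟨h3, h4, h6⟩ h
    obtain ⟨e1, e2⟩ := vec2 h
    dsimp only at h1 h2 h3 h4 h5 h6 e1 e2 ⊢
    grind
  · rintro ⟨⟨a, b⟩, a', b'⟩ hy ⟨h1, h2, h3⟩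
    dsimp only at h1 h2 h3 ⊢
    subst h1 h3
    have hset : insert m ({a, a, a, b'} : Finset (Fin N)) = insert m {a, b'} := by
      ext z
      simp only [Finset.mem_insert, Finset.mem_singleton]
      tauto
    rw [g2, hset, img2]
    refine fin_step ?_ (sq_nonneg _)
    rw [bet_diag, bet_off R m x a b' h2]
    simp only [Fin.prod_univ_two, Matrix.cons_val_zero, Matrix.cons_val_one, rad, if_true]
    exact sc_a (Nat.cast_nonneg _) (Real.sqrt_nonneg _) (nr_nonneg _ _ _ _) (nr_nonneg _ _ _ _)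
      (nr_le_one _ _ _ _) (nr_nonneg _ _ _ _)

theorem c2 : ∑ y ∈ (SS m).filter (pc 2), g2 f1 f2 R m x y ≤
    ((N : ℝ) * Real.sqrt N) * errT f1 f2 R 2 ![true, false] m x := by
  refine cls_bound f1 f2 R ![true, false] m x (SS m) (g2 f1 f2 R m x)
    (fun y => ![y.1.1, y.2.1]) (pc 2) ((N : ℝ) * Real.sqrt N) (by positivity) ?_ ?_ ?_
  · rintro ⟨⟨a, b⟩, a', b'⟩ hy ⟨h1, h2, h3⟩
    have hm := mem_SS m _ hy
    dsimp only at h1 h2 h3 hm ⊢
    refine inj2 m a a' hm.2.1 hm.2.2.2.2.1 (fun h => h2 (by rw [← h3, h]))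
  · rintro ⟨⟨a, b⟩, a', b'⟩ _ ⟨h1, h2, h5⟩ ⟨⟨c, d⟩, c', d'⟩ _ ⟨h3, h4, h6⟩ h
    obtain ⟨e1, e2⟩ := vec2 h
    dsimp only at h1 h2 h3 h4 h5 h6 e1 e2 ⊢
    grind
  · rintro ⟨⟨a, b⟩, a', b'⟩ hy ⟨h1, h2, h3⟩
    dsimp only at h1 h2 h3 ⊢
    subst h1 h3
    have hset : insert m ({a, a, a', a} : Finset (Fin N)) = insert m {a, a'} := by
      ext z
      simp only [Finset.mem_insert, Finset.mem_singleton]
      tauto
    rw [g2, hset, img2]
    refine fin_step ?_ (sq_nonneg _)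
    rw [bet_diag, bet_off R m x a' a h2]
    simp only [Fin.prod_univ_two, Matrix.cons_val_zero, Matrix.cons_val_one, rad, if_true]
    rw [mul_comm (nr (R / Real.sqrt N) m a' x)]
    exact sc_a (Nat.cast_nonneg _) (Real.sqrt_nonneg _) (nr_nonneg _ _ _ _) (nr_nonneg _ _ _ _)
      (nr_le_one _ _ _ _) (nr_nonneg _ _ _ _)

theorem c3 : ∑ y ∈ (SS m).filter (pc 3), g2 f1 f2 R m x y ≤
    ((N : ℝ) * Real.sqrt N) * errT f1 f2 R 3 ![true, false, false] m x := by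
  refine cls_bound f1 f2 R ![true, false, false] m x (SS m) (g2 f1 f2 R m x)
    (fun y => ![y.1.1, y.2.1, y.2.2]) (pc 3) ((N : ℝ) * Real.sqrt N) (by positivity) ?_ ?_ ?_
  · rintro ⟨⟨a, b⟩, a', b'⟩ hy ⟨h1, h2, h3, h4⟩
    have hm := mem_SS m _ hy
    dsimp only at h1 h2 h3 h4 hm ⊢
    exact inj3 m a a' b' hm.2.1 hm.2.2.2.2.1 hm.2.2.2.2.2.1 h3 h4 h2
  · rintro ⟨⟨a, b⟩, a', b'⟩ _ ⟨h1, h2, h5, _⟩ ⟨⟨c, d⟩, c', d'⟩ _ ⟨h3, h4, h6, _⟩ h
    obtain ⟨e1, e2, e3⟩ := vec3 h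
    dsimp only at h1 h2 h3 h4 h5 h6 e1 e2 e3 ⊢
    grind
  · rintro ⟨⟨a, b⟩, a', b'⟩ hy ⟨h1, h2, h3, h4⟩
    dsimp only at h1 h2 h3 h4 ⊢
    subst h1
    have hset : insert m ({a, a, a', b'} : Finset (Fin N)) = insert m {a, a', b'} := by
      ext z
      simp only [Finset.mem_insert, Finset.mem_singleton]
      tauto
    rw [g2, hset, img3]
    refine fin_step ?_ (sq_nonneg _)
    rw [bet_diag, bet_off R m x a' b' h2]
    simp only [Fin.prod_univ_three, Matrix.cons_val_zero, Matrix.cons_val_one,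
      Matrix.cons_val_two, Matrix.cons_val, rad, if_true]
    apply le_of_eq
    simp
    ring

theorem c4 : ∑ y ∈ (SS m).filter (pc 4), g2 f1 f2 R m x y ≤
    ((N : ℝ) * Real.sqrt N) * errT f1 f2 R 2 ![true, false] m x := by
  refine cls_bound f1 f2 R ![true, false] m x (SS m) (g2 f1 f2 R m x)
    (fun y => ![y.2.1, y.1.2]) (pc 4) ((N : ℝ) * Real.sqrt N) (by positivity) ?_ ?_ ?_
  · rintro ⟨⟨a, b⟩, a', b'⟩ hy ⟨h1, h2, h3⟩
    have hm := mem_SS m _ hy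
    dsimp only at h1 h2 h3 hm ⊢
    refine inj2 m a' b hm.2.2.2.2.1 hm.2.2.1 (fun h => h2 (by rw [← h3, h]))
  · rintro ⟨⟨a, b⟩, a', b'⟩ _ ⟨h1, h2, h5⟩ ⟨⟨c, d⟩, c', d'⟩ _ ⟨h3, h4, h6⟩ h
    obtain ⟨e1, e2⟩ := vec2 h
    dsimp only at h1 h2 h3 h4 h5 h6 e1 e2 ⊢
    grind
  · rintro ⟨⟨a, b⟩, a', b'⟩ hy ⟨h1, h2, h3⟩
    dsimp only at h1 h2 h3 ⊢
    subst h1 h3
    have hset : insert m ({a', b, a', a'} : Finset (Fin N)) = insert m {a', b} := by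
      ext z
      simp only [Finset.mem_insert, Finset.mem_singleton]
      tauto
    rw [g2, hset, img2]
    refine fin_step ?_ (sq_nonneg _)
    rw [bet_diag, bet_off R m x a' b h2, mul_comm (Real.sqrt N * _)]
    simp only [Fin.prod_univ_two, Matrix.cons_val_zero, Matrix.cons_val_one, rad, if_true]
    exact sc_a (Nat.cast_nonneg _) (Real.sqrt_nonneg _) (nr_nonneg _ _ _ _) (nr_nonneg _ _ _ _)
      (nr_le_one _ _ _ _) (nr_nonneg _ _ _ _)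

theorem c5 : ∑ y ∈ (SS m).filter (pc 5), g2 f1 f2 R m x y ≤
    ((N : ℝ) * Real.sqrt N) * errT f1 f2 R 2 ![true, false] m x := by
  refine cls_bound f1 f2 R ![true, false] m x (SS m) (g2 f1 f2 R m x)
    (fun y => ![y.2.1, y.1.1]) (pc 5) ((N : ℝ) * Real.sqrt N) (by positivity) ?_ ?_ ?_
  · rintro ⟨⟨a, b⟩, a', b'⟩ hy ⟨h1, h2, h3⟩
    have hm := mem_SS m _ hy
    dsimp only at h1 h2 h3 hm ⊢
    refine inj2 m a' a hm.2.2.2.2.1 hm.2.1 (fun h => h2 (by rw [← h3, h]))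
  · rintro ⟨⟨a, b⟩, a', b'⟩ _ ⟨h1, h2, h5⟩ ⟨⟨c, d⟩, c', d'⟩ _ ⟨h3, h4, h6⟩ h
    obtain ⟨e1, e2⟩ := vec2 h
    dsimp only at h1 h2 h3 h4 h5 h6 e1 e2 ⊢
    grind
  · rintro ⟨⟨a, b⟩, a', b'⟩ hy ⟨h1, h2, h3⟩
    dsimp only at h1 h2 h3 ⊢
    subst h1 h3
    have hset : insert m ({a, a', a', a'} : Finset (Fin N)) = insert m {a', a} := by
      ext z
      simp only [Finset.mem_insert, Finset.mem_singleton]
      tauto
    rw [g2, hset, img2]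
    refine fin_step ?_ (sq_nonneg _)
    rw [bet_diag, bet_off R m x a a' h2, mul_comm (Real.sqrt N * _),
      mul_comm (nr (R / Real.sqrt N) m a x)]
    simp only [Fin.prod_univ_two, Matrix.cons_val_zero, Matrix.cons_val_one, rad, if_true]
    exact sc_a (Nat.cast_nonneg _) (Real.sqrt_nonneg _) (nr_nonneg _ _ _ _) (nr_nonneg _ _ _ _)
      (nr_le_one _ _ _ _) (nr_nonneg _ _ _ _)

theorem c6 : ∑ y ∈ (SS m).filter (pc 6), g2 f1 f2 R m x y ≤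
    ((N : ℝ) * Real.sqrt N) * errT f1 f2 R 3 ![true, false, false] m x := by
  refine cls_bound f1 f2 R ![true, false, false] m x (SS m) (g2 f1 f2 R m x)
    (fun y => ![y.2.1, y.1.1, y.1.2]) (pc 6) ((N : ℝ) * Real.sqrt N) (by positivity) ?_ ?_ ?_
  · rintro ⟨⟨a, b⟩, a', b'⟩ hy ⟨h1, h2, h3, h4⟩
    have hm := mem_SS m _ hy
    dsimp only at h1 h2 h3 h4 hm ⊢
    exact inj3 m a' a b hm.2.2.2.2.1 hm.2.1 hm.2.2.1 h3 h4 h2
  · rintro ⟨⟨a, b⟩, a', b'⟩ _ ⟨h1, h2, h5, _⟩ ⟨⟨c, d⟩, c', d'⟩ _ ⟨h3, h4, h6, _⟩ h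
    obtain ⟨e1, e2, e3⟩ := vec3 h
    dsimp only at h1 h2 h3 h4 h5 h6 e1 e2 e3 ⊢
    grind
  · rintro ⟨⟨a, b⟩, a', b'⟩ hy ⟨h1, h2, h3, h4⟩
    dsimp only at h1 h2 h3 h4 ⊢
    subst h1
    have hset : insert m ({a, b, a', a'} : Finset (Fin N)) = insert m {a', a, b} := by
      ext z
      simp only [Finset.mem_insert, Finset.mem_singleton]
      tauto
    rw [g2, hset, img3]
    refine fin_step ?_ (sq_nonneg _)
    rw [bet_diag, bet_off R m x a b h2]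
    simp only [Fin.prod_univ_three, Matrix.cons_val_zero, Matrix.cons_val_one,
      Matrix.cons_val_two, Matrix.cons_val, rad, if_true]
    apply le_of_eq
    simp
    ring

theorem c7 : ∑ y ∈ (SS m).filter (pc 7), g2 f1 f2 R m x y ≤
    (N : ℝ) * errT f1 f2 R 3 ![false, false, false] m x := by
  refine cls_bound f1 f2 R ![false, false, false] m x (SS m) (g2 f1 f2 R m x)
    (fun y => ![y.1.1, y.1.2, y.2.2]) (pc 7) (N : ℝ) (by positivity) ?_ ?_ ?_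
  · rintro ⟨⟨a, b⟩, a', b'⟩ hy ⟨h1, h2, h3⟩
    have hm := mem_SS m _ hy
    dsimp only at h1 h2 h3 hm ⊢
    exact inj3 m a b b' hm.2.1 hm.2.2.1 hm.2.2.2.2.2.1 h1 (fun h => h2 (by rw [← h3, h]))
      (fun h => hm.2.2.2.2.2.2 ⟨h3, h⟩)
  · rintro ⟨⟨a, b⟩, a', b'⟩ _ ⟨h1, h2, h5⟩ ⟨⟨c, d⟩, c', d'⟩ _ ⟨h3, h4, h6⟩ h
    obtain ⟨e1, e2, e3⟩ := vec3 h
    dsimp only at h1 h2 h3 h4 h5 h6 e1 e2 e3 ⊢
    grind
  · rintro ⟨⟨a, b⟩, a', b'⟩ hy ⟨h1, h2, h3⟩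
    dsimp only at h1 h2 h3 ⊢
    subst h3
    have hset : insert m ({a, b, a, b'} : Finset (Fin N)) = insert m {a, b, b'} := by
      ext z
      simp only [Finset.mem_insert, Finset.mem_singleton]
      tauto
    rw [g2, hset, img3]
    refine fin_step ?_ (sq_nonneg _)
    rw [bet_off R m x a b h1, bet_off R m x a b' h2]
    simp only [Fin.prod_univ_three, Matrix.cons_val_zero, Matrix.cons_val_one,
      Matrix.cons_val_two, Matrix.cons_val, rad]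
    simp only [Bool.false_eq_true, if_false]
    exact sc_b (Real.mul_self_sqrt (Nat.cast_nonneg _)) (Nat.cast_nonneg _) (nr_nonneg _ _ _ _)
      (nr_le_one _ _ _ _) (nr_nonneg _ _ _ _) (nr_nonneg _ _ _ _)

theorem c8 : ∑ y ∈ (SS m).filter (pc 8), g2 f1 f2 R m x y ≤
    (N : ℝ) * errT f1 f2 R 3 ![false, false, false] m x := by
  refine cls_bound f1 f2 R ![false, false, false] m x (SS m) (g2 f1 f2 R m x)
    (fun y => ![y.1.1, y.1.2, y.2.1]) (pc 8) (N : ℝ) (by positivity) ?_ ?_ ?_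
  · rintro ⟨⟨a, b⟩, a', b'⟩ hy ⟨h1, h2, h3⟩
    have hm := mem_SS m _ hy
    dsimp only at h1 h2 h3 hm ⊢
    refine inj3 m a b a' hm.2.1 hm.2.2.1 hm.2.2.2.2.1 h1 (fun h => h2 (by rw [← h3, h])) ?_
    rintro rfl
    exact h1 (le_antisymm hm.1 (h3 ▸ hm.2.2.2.1))
  · rintro ⟨⟨a, b⟩, a', b'⟩ _ ⟨h1, h2, h5⟩ ⟨⟨c, d⟩, c', d'⟩ _ ⟨h3, h4, h6⟩ h
    obtain ⟨e1, e2, e3⟩ := vec3 h
    dsimp only at h1 h2 h3 h4 h5 h6 e1 e2 e3 ⊢
    grind
  · rintro ⟨⟨a, b⟩, a', b'⟩ hy ⟨h1, h2, h3⟩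
    dsimp only at h1 h2 h3 ⊢
    subst h3
    have hset : insert m ({a, b, a', a} : Finset (Fin N)) = insert m {a, b, a'} := by
      ext z
      simp only [Finset.mem_insert, Finset.mem_singleton]
      tauto
    rw [g2, hset, img3]
    refine fin_step ?_ (sq_nonneg _)
    rw [bet_off R m x a b h1, bet_off R m x a' a h2, mul_comm (nr (R / Real.sqrt N) m a' x)]
    simp only [Fin.prod_univ_three, Matrix.cons_val_zero, Matrix.cons_val_one,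
      Matrix.cons_val_two, Matrix.cons_val, rad]
    simp only [Bool.false_eq_true, if_false]
    exact sc_b (Real.mul_self_sqrt (Nat.cast_nonneg _)) (Nat.cast_nonneg _) (nr_nonneg _ _ _ _)
      (nr_le_one _ _ _ _) (nr_nonneg _ _ _ _) (nr_nonneg _ _ _ _)

theorem c9 : ∑ y ∈ (SS m).filter (pc 9), g2 f1 f2 R m x y ≤
    (N : ℝ) * errT f1 f2 R 3 ![false, false, false] m x := by
  refine cls_bound f1 f2 R ![false, false, false] m x (SS m) (g2 f1 f2 R m x)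
    (fun y => ![y.1.2, y.1.1, y.2.2]) (pc 9) (N : ℝ) (by positivity) ?_ ?_ ?_
  · rintro ⟨⟨a, b⟩, a', b'⟩ hy ⟨h1, h2, h3⟩
    have hm := mem_SS m _ hy
    dsimp only at h1 h2 h3 hm ⊢
    refine inj3 m b a b' hm.2.2.1 hm.2.1 hm.2.2.2.2.2.1 (Ne.symm h1)
      (fun h => h2 (by rw [← h3, h])) ?_
    rintro rfl
    exact h1 (le_antisymm hm.1 (h3 ▸ hm.2.2.2.1))
  · rintro ⟨⟨a, b⟩, a', b'⟩ _ ⟨h1, h2, h5⟩ ⟨⟨c, d⟩, c', d'⟩ _ ⟨h3, h4, h6⟩ h
    obtain ⟨e1, e2, e3⟩ := vec3 h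
    dsimp only at h1 h2 h3 h4 h5 h6 e1 e2 e3 ⊢
    grind
  · rintro ⟨⟨a, b⟩, a', b'⟩ hy ⟨h1, h2, h3⟩
    dsimp only at h1 h2 h3 ⊢
    subst h3
    have hset : insert m ({a, b, b, b'} : Finset (Fin N)) = insert m {b, a, b'} := by
      ext z
      simp only [Finset.mem_insert, Finset.mem_singleton]
      tauto
    rw [g2, hset, img3]
    refine fin_step ?_ (sq_nonneg _)
    rw [bet_off R m x a b h1, bet_off R m x b b' h2, mul_comm (nr (R / Real.sqrt N) m a x)]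
    simp only [Fin.prod_univ_three, Matrix.cons_val_zero, Matrix.cons_val_one,
      Matrix.cons_val_two, Matrix.cons_val, rad]
    simp only [Bool.false_eq_true, if_false]
    exact sc_b (Real.mul_self_sqrt (Nat.cast_nonneg _)) (Nat.cast_nonneg _) (nr_nonneg _ _ _ _)
      (nr_le_one _ _ _ _) (nr_nonneg _ _ _ _) (nr_nonneg _ _ _ _)

theorem c10 : ∑ y ∈ (SS m).filter (pc 10), g2 f1 f2 R m x y ≤
    (N : ℝ) * errT f1 f2 R 3 ![false, false, false] m x := by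
  refine cls_bound f1 f2 R ![false, false, false] m x (SS m) (g2 f1 f2 R m x)
    (fun y => ![y.1.2, y.1.1, y.2.1]) (pc 10) (N : ℝ) (by positivity) ?_ ?_ ?_
  · rintro ⟨⟨a, b⟩, a', b'⟩ hy ⟨h1, h2, h3⟩
    have hm := mem_SS m _ hy
    dsimp only at h1 h2 h3 hm ⊢
    exact inj3 m b a a' hm.2.2.1 hm.2.1 hm.2.2.2.2.1 (Ne.symm h1)
      (fun h => h2 (by rw [← h3, h])) (fun h => hm.2.2.2.2.2.2 ⟨h, h3⟩)
  · rintro ⟨⟨a, b⟩, a', b'⟩ _ ⟨h1, h2, h5⟩ ⟨⟨c, d⟩, c', d'⟩ _ ⟨h3, h4, h6⟩ h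
    obtain ⟨e1, e2, e3⟩ := vec3 h
    dsimp only at h1 h2 h3 h4 h5 h6 e1 e2 e3 ⊢
    grind
  · rintro ⟨⟨a, b⟩, a', b'⟩ hy ⟨h1, h2, h3⟩
    dsimp only at h1 h2 h3 ⊢
    subst h3
    have hset : insert m ({a, b, a', b} : Finset (Fin N)) = insert m {b, a, a'} := by
      ext z
      simp only [Finset.mem_insert, Finset.mem_singleton]
      tauto
    rw [g2, hset, img3]
    refine fin_step ?_ (sq_nonneg _)
    rw [bet_off R m x a b h1, bet_off R m x a' b h2, mul_comm (nr (R / Real.sqrt N) m a x),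
      mul_comm (nr (R / Real.sqrt N) m a' x)]
    simp only [Fin.prod_univ_three, Matrix.cons_val_zero, Matrix.cons_val_one,
      Matrix.cons_val_two, Matrix.cons_val, rad]
    simp only [Bool.false_eq_true, if_false]
    exact sc_b (Real.mul_self_sqrt (Nat.cast_nonneg _)) (Nat.cast_nonneg _) (nr_nonneg _ _ _ _)
      (nr_le_one _ _ _ _) (nr_nonneg _ _ _ _) (nr_nonneg _ _ _ _)

theorem c11 : ∑ y ∈ (SS m).filter (pc 11), g2 f1 f2 R m x y ≤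
    (N : ℝ) * errT f1 f2 R 4 ![false, false, false, false] m x := by
  refine cls_bound f1 f2 R ![false, false, false, false] m x (SS m) (g2 f1 f2 R m x)
    (fun y => ![y.1.1, y.1.2, y.2.1, y.2.2]) (pc 11) (N : ℝ) (by positivity) ?_ ?_ ?_
  · rintro ⟨⟨a, b⟩, a', b'⟩ hy ⟨h1, h2, h3, h4, h5, h6⟩
    have hm := mem_SS m _ hy
    dsimp only at h1 h2 h3 h4 h5 h6 hm ⊢
    exact inj4 m a b a' b' hm.2.1 hm.2.2.1 hm.2.2.2.2.1 hm.2.2.2.2.2.1 h1 h3 h4 h5 h6 h2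
  · rintro ⟨⟨a, b⟩, a', b'⟩ _ _ ⟨⟨c, d⟩, c', d'⟩ _ _ h
    obtain ⟨e1, e2, e3, e4⟩ := vec4 h
    dsimp only at e1 e2 e3 e4 ⊢
    rw [e1, e2, e3, e4]
  · rintro ⟨⟨a, b⟩, a', b'⟩ hy ⟨h1, h2, h3, h4, h5, h6⟩
    dsimp only at h1 h2 h3 h4 h5 h6 ⊢
    rw [g2, img4]
    refine fin_step ?_ (sq_nonneg _)
    rw [bet_off R m x a b h1, bet_off R m x a' b' h2]
    have hr : rad R N false = R / Real.sqrt N := by simp [rad]
    have hp : (∏ l : Fin 4, nr (rad R N ((![false, false, false, false] : Fin 4 → Bool) l)) m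
        ((![a, b, a', b'] : Fin 4 → Fin N) l) x) =
        nr (rad R N false) m a x * nr (rad R N false) m b x * nr (rad R N false) m a' x *
          nr (rad R N false) m b' x := by
      rw [Fin.prod_univ_four]
      rfl
    rw [hp, hr]
    apply le_of_eq
    have hs := Real.mul_self_sqrt (Nat.cast_nonneg (α := ℝ) N)
    linear_combination (nr (R / Real.sqrt N) m a x * nr (R / Real.sqrt N) m b x *
      nr (R / Real.sqrt N) m a' x * nr (R / Real.sqrt N) m b' x) * hs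

/-- second order sum -/
theorem T2_bound : ∑ y ∈ SS m, g2 f1 f2 R m x y ≤ 4 * errA f1 f2 R m x := by
  have h := cover_sum (SS m) (g2 f1 f2 R m x) (fun y _ => g2_nonneg f1 f2 R m x y) 12
    (fun i => pc i) (fun y _ => cover_pc y)
  have e0 := c0 f1 f2 R m x
  have e1 := c1 f1 f2 R m x
  have e2 := c2 f1 f2 R m x
  have e3 := c3 f1 f2 R m x
  have e4 := c4 f1 f2 R m x
  have e5 := c5 f1 f2 R m x
  have e6 := c6 f1 f2 R m x
  have e7 := c7 f1 f2 R m x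
  have e8 := c8 f1 f2 R m x
  have e9 := c9 f1 f2 R m x
  have e10 := c10 f1 f2 R m x
  have e11 := c11 f1 f2 R m x
  simp only [Finset.sum_range_succ, Finset.sum_range_zero, zero_add] at h
  have n1 : 0 ≤ (N : ℝ) * errT f1 f2 R 1 ![true] m x :=
    mul_nonneg (Nat.cast_nonneg _) (errT_nonneg _ _ _ _ _ _)
  have n2 : 0 ≤ Real.sqrt N * errT f1 f2 R 2 ![false, false] m x :=
    mul_nonneg (Real.sqrt_nonneg _) (errT_nonneg _ _ _ _ _ _)
  have n3 : 0 ≤ (N : ℝ) ^ 2 * errT f1 f2 R 2 ![true, true] m x :=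
    mul_nonneg (by positivity) (errT_nonneg _ _ _ _ _ _)
  have n4 : 0 ≤ (N : ℝ) * Real.sqrt N * errT f1 f2 R 2 ![true, false] m x :=
    mul_nonneg (by positivity) (errT_nonneg _ _ _ _ _ _)
  have n5 : 0 ≤ (N : ℝ) * Real.sqrt N * errT f1 f2 R 3 ![true, false, false] m x :=
    mul_nonneg (by positivity) (errT_nonneg _ _ _ _ _ _)
  have n6 : 0 ≤ (N : ℝ) * errT f1 f2 R 3 ![false, false, false] m x :=
    mul_nonneg (by positivity) (errT_nonneg _ _ _ _ _ _)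
  have n7 : 0 ≤ (N : ℝ) * errT f1 f2 R 4 ![false, false, false, false] m x :=
    mul_nonneg (by positivity) (errT_nonneg _ _ _ _ _ _)
  rw [errA]
  linarith

end Pool.Agent.W724.TWB
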