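import Pool.Agent.W724.TWB.Pwk3

/-! TWB-PWK, part 4: derivatives -/

set_option autoImplicit false

noncomputable section

namespace Pool.Agent.W724.TWB

open MeasureTheory Set Filter Metric
open Pool.Agent.W734.TWB

/-- the direction `e_k` of the particle `m` -/
def wv {N : ℕ} (m : Fin N) (k : Fin 3) : Cfg N :=
  Pi.single m (EuclideanSpace.single k (1 : ℝ))

theorem wv_same {N : ℕ} (m : Fin N) (k : Fin 3) : wv m k m = EuclideanSpace.single k (1 : ℝ) := by
  simp [wv]

theorem wv_ne {N : ℕ} (m : Fin N) (k : Fin 3) (i : Fin N) (h : i ≠ m) : wv m k i = 0 := by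
  simp [wv, Pi.single_apply, h]

theorem norm_wv_sub {N : ℕ} (m : Fin N) (k : Fin 3) (i j : Fin N) (h : i ≠ j) :
    ‖wv m k i - wv m k j‖ ≤ 1 := by
  by_cases hi : i = m
  · subst hi
    rw [wv_same, wv_ne i k j h.symm, sub_zero]
    simp
  · by_cases hj : j = m
    · subst hj
      rw [wv_same, wv_ne j k i hi, zero_sub, norm_neg]
      simp
    · rw [wv_ne m k i hi, wv_ne m k j hj]
      simp

/-- linear part of the argument of a pair -/
def ma {N : ℕ} (i j : Fin N) : Cfg N →L[ℝ] E3 :=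
  (ContinuousLinearMap.proj (R := ℝ) (φ := fun _ : Fin N => E3) i) -
    (ContinuousLinearMap.proj (R := ℝ) (φ := fun _ : Fin N => E3) j)

theorem ma_apply {N : ℕ} (i j : Fin N) (x : Cfg N) : ma i j x = x i - x j := by
  simp [ma]

/-- derivative of the factor of a cluster -/
def LC {N : ℕ} (f1 : E3 → ℝ) (f2 : E3 × E3 → ℝ) (c : Cl N) (x : Cfg N) : Cfg N →L[ℝ] ℝ :=
  match c with
  | Sum.inl p => (fderiv ℝ f1 ((N : ℝ) • (x p.1 - x p.2))).comp ((N : ℝ) • ma p.1 p.2)
  | Sum.inr p => (fderiv ℝ f2 (Real.sqrt N • (x p.1 - x p.2.1, x p.1 - x p.2.2))).comp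
      (Real.sqrt N • ((ma p.1 p.2.1).prod (ma p.1 p.2.2)))

theorem hasF_FC {N : ℕ} {f1 : E3 → ℝ} {f2 : E3 × E3 → ℝ} (h1 : Differentiable ℝ f1)
    (h2 : Differentiable ℝ f2) (c : Cl N) (x : Cfg N) :
    HasFDerivAt (fun x => FC f1 f2 c x) (LC f1 f2 c x) x := by
  rcases c with ⟨i, j⟩ | ⟨i, j, k⟩
  · have hin : HasFDerivAt (fun x : Cfg N => (N : ℝ) • (x i - x j)) ((N : ℝ) • ma i j) x := by
      have := ((N : ℝ) • ma i j).hasFDerivAt (x := x)
      convert this using 1
      funext y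
      simp [ma]
    exact (h1 ((N : ℝ) • (x i - x j))).hasFDerivAt.comp x hin
  · have hin : HasFDerivAt (fun x : Cfg N => Real.sqrt N • (x i - x j, x i - x k))
        (Real.sqrt N • ((ma i j).prod (ma i k))) x := by
      have := (Real.sqrt N • ((ma i j).prod (ma i k))).hasFDerivAt (x := x)
      convert this using 1
      funext y
      simp [ma]
    exact (h2 (Real.sqrt N • (x i - x j, x i - x k))).hasFDerivAt.comp x hin

theorem LC_inl {N : ℕ} (f1 : E3 → ℝ) (f2 : E3 × E3 → ℝ) (i j : Fin N) (x w : Cfg N) :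
    LC f1 f2 (Sum.inl (i, j)) x w =
      (N : ℝ) * fderiv ℝ f1 ((N : ℝ) • (x i - x j)) (w i - w j) := by
  simp [LC, ma]

theorem LC_inr {N : ℕ} (f1 : E3 → ℝ) (f2 : E3 × E3 → ℝ) (i j k : Fin N) (x w : Cfg N) :
    LC f1 f2 (Sum.inr (i, j, k)) x w =
      Real.sqrt N * fderiv ℝ f2 (Real.sqrt N • (x i - x j, x i - x k)) (w i - w j, w i - w k) := by
  have h : LC f1 f2 (Sum.inr (i, j, k)) x w =
      fderiv ℝ f2 (Real.sqrt N • (x i - x j, x i - x k))
        ((Real.sqrt N • ((ma i j).prod (ma i k))) w) := rfl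
  have h' : (Real.sqrt N • ((ma i j).prod (ma i k))) w =
      Real.sqrt N • ((w i - w j, w i - w k) : E3 × E3) := by
    simp [ma]
  rw [h, h', map_smul, smul_eq_mul]

theorem bddf {X : Type*} [NormedAddCommGroup X] [NormedSpace ℝ X] [ProperSpace X] (f : X → ℝ)
    (hf : ContDiff ℝ ((⊤ : ℕ∞) : WithTop ℕ∞) f) (R : ℝ) (h1 : ∀ x, R ≤ ‖x‖ → f x = 1) :
    (∀ x, R < ‖x‖ → fderiv ℝ f x = 0) ∧ ∃ C : ℝ, 0 ≤ C ∧ ∀ x, ‖fderiv ℝ f x‖ ≤ C := by
  have h0 : ∀ x, R < ‖x‖ → fderiv ℝ f x = 0 := by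
    intro x hx
    have hopen : IsOpen {y : X | R < ‖y‖} := isOpen_lt continuous_const continuous_norm
    have heq : f =ᶠ[nhds x] fun _ => (1 : ℝ) := by
      filter_upwards [hopen.mem_nhds hx] with y hy
      exact h1 y (le_of_lt hy)
    rw [heq.fderiv_eq]
    simp
  refine ⟨h0, ?_⟩
  have hcont : Continuous (fun x => fderiv ℝ f x) := hf.continuous_fderiv (by simp)
  obtain ⟨C, hC⟩ := (isCompact_closedBall (0 : X) R).exists_bound_of_continuousOn
    hcont.continuousOn
  refine ⟨max C 0, le_max_right _ _, fun x => ?_⟩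
  by_cases hx : R < ‖x‖
  · rw [h0 x hx, norm_zero]
    exact le_max_right _ _
  · refine le_trans (hC x ?_) (le_max_left _ _)
    rw [mem_closedBall, dist_zero_right]
    exact not_lt.mp hx

theorem LC_zero {N : ℕ} (f1 : E3 → ℝ) (f2 : E3 × E3 → ℝ) (c : Cl N) (x : Cfg N) (m : Fin N)
    (k : Fin 3) (hm : m ∉ VV c) : LC f1 f2 c x (wv m k) = 0 := by
  rcases c with ⟨i, j⟩ | ⟨i, j, l⟩
  · simp only [VV, Finset.mem_insert, Finset.mem_singleton, not_or] at hm
    rw [LC_inl, wv_ne m k i (Ne.symm hm.1), wv_ne m k j (Ne.symm hm.2)]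
    simp
  · simp only [VV, Finset.mem_insert, Finset.mem_singleton, not_or] at hm
    rw [LC_inr, wv_ne m k i (Ne.symm hm.1), wv_ne m k j (Ne.symm hm.2.1),
      wv_ne m k l (Ne.symm hm.2.2), sub_self]
    rw [show (((0 : E3), (0 : E3)) : E3 × E3) = 0 from rfl, map_zero, mul_zero]

theorem nr_eq_one {N : ℕ} (r : ℝ) (m a : Fin N) (x : Cfg N) (h : ‖x m - x a‖ ≤ r) :
    nr r m a x = 1 := by
  simp [nr, h]

theorem LC_bound {N : ℕ} (hN : 1 ≤ N) {R1 R2 : ℝ} {f1 : E3 → ℝ} {f2 : E3 × E3 → ℝ}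
    (hR1 : 0 < R1) (hR2 : 0 < R2)
    {C0 : ℝ} (hC0 : 0 ≤ C0) (hz1 : ∀ z, R1 < ‖z‖ → fderiv ℝ f1 z = 0)
    (hz2 : ∀ z, R2 < ‖z‖ → fderiv ℝ f2 z = 0) (hb1 : ∀ z, ‖fderiv ℝ f1 z‖ ≤ C0)
    (hb2 : ∀ z, ‖fderiv ℝ f2 z‖ ≤ C0) (c : Cl N) (hc : c ∈ sA (Finset.univ : Finset (Fin N)))
    (x : Cfg N) (m : Fin N) (k : Fin 3) (hm : m ∈ VV c) :
    |LC f1 f2 c x (wv m k)| ≤ C0 * bet (R1 + 2 * R2) m x (oth m c) := by
  have hN0 : (0 : ℝ) < N := by exact_mod_cast hN
  have hsN : 0 < Real.sqrt N := Real.sqrt_pos.mpr hN0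
  have hbn := mul_nonneg hC0 (bet_nonneg (R1 + 2 * R2) m x (oth m c))
  rcases c with ⟨i, j⟩ | ⟨i, j, l⟩
  · simp only [sA, Finset.inl_mem_disjSum, Finset.mem_filter, Finset.mem_product,
      Finset.mem_univ, true_and] at hc
    rw [LC_inl]
    by_cases hz : R1 < ‖(N : ℝ) • (x i - x j)‖
    · rw [hz1 _ hz]
      simpa using hbn
    · have hd : ‖x i - x j‖ ≤ (R1 + 2 * R2) / N := by
        rw [not_lt, norm_smul, Real.norm_of_nonneg hN0.le] at hz
        rw [le_div_iff₀ hN0]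
        nlinarith
      have hd' : ‖x j - x i‖ ≤ (R1 + 2 * R2) / N := by rwa [norm_sub_rev]
      have hbet : bet (R1 + 2 * R2) m x (oth m (Sum.inl (i, j))) = N := by
        simp only [VV, Finset.mem_insert, Finset.mem_singleton] at hm
        rcases hm with rfl | rfl
        · simp only [oth, if_true]
          rw [bet_diag, nr_eq_one _ _ _ _ hd, mul_one]
        · have hne : i ≠ m := hc.ne
          simp only [oth, hne, if_false]
          rw [bet_diag, nr_eq_one _ _ _ _ hd', mul_one]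
      rw [hbet, abs_mul, abs_of_nonneg hN0.le, mul_comm]
      refine mul_le_mul_of_nonneg_right ?_ hN0.le
      have := (fderiv ℝ f1 ((N : ℝ) • (x i - x j))).le_opNorm (wv m k i - wv m k j)
      rw [Real.norm_eq_abs] at this
      refine le_trans this ?_
      have h3 := norm_wv_sub m k i j hc.ne
      calc ‖fderiv ℝ f1 ((N : ℝ) • (x i - x j))‖ * ‖wv m k i - wv m k j‖ ≤ C0 * 1 :=
            mul_le_mul (hb1 _) h3 (norm_nonneg _) hC0
        _ = C0 := mul_one _
  · simp only [sA, Finset.inr_mem_disjSum, Finset.mem_filter, Finset.mem_product,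
      Finset.mem_univ, true_and] at hc
    obtain ⟨h1, h2⟩ := hc
    rw [LC_inr]
    by_cases hz : R2 < ‖Real.sqrt N • ((x i - x j, x i - x l) : E3 × E3)‖
    · rw [hz2 _ hz]
      simpa using hbn
    · rw [not_lt, norm_smul, Real.norm_of_nonneg hsN.le, Prod.norm_def] at hz
      dsimp only at hz
      have e1 : Real.sqrt N * ‖x i - x j‖ ≤ R2 :=
        le_trans (mul_le_mul_of_nonneg_left (le_max_left _ _) hsN.le) hz
      have e2 : Real.sqrt N * ‖x i - x l‖ ≤ R2 :=
        le_trans (mul_le_mul_of_nonneg_left (le_max_right _ _) hsN.le) hz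
      have e3 : Real.sqrt N * ‖x j - x l‖ ≤ 2 * R2 := by
        have : ‖x j - x l‖ ≤ ‖x i - x j‖ + ‖x i - x l‖ := by
          have h := norm_sub_le (x i - x l) (x i - x j)
          have h' : x i - x l - (x i - x j) = x j - x l := by abel
          rw [h'] at h
          linarith
        have := mul_le_mul_of_nonneg_left this hsN.le
        linarith
      have d1 : ‖x i - x j‖ ≤ (R1 + 2 * R2) / Real.sqrt N := by
        rw [le_div_iff₀ hsN]
        linarith
      have d2 : ‖x i - x l‖ ≤ (R1 + 2 * R2) / Real.sqrt N := by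
        rw [le_div_iff₀ hsN]
        linarith
      have d3 : ‖x j - x l‖ ≤ (R1 + 2 * R2) / Real.sqrt N := by
        rw [le_div_iff₀ hsN]
        linarith
      have d1' : ‖x j - x i‖ ≤ (R1 + 2 * R2) / Real.sqrt N := by rwa [norm_sub_rev]
      have d2' : ‖x l - x i‖ ≤ (R1 + 2 * R2) / Real.sqrt N := by rwa [norm_sub_rev]
      have d3' : ‖x l - x j‖ ≤ (R1 + 2 * R2) / Real.sqrt N := by rwa [norm_sub_rev]
      have hbet : bet (R1 + 2 * R2) m x (oth m (Sum.inr (i, j, l))) = Real.sqrt N := by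
        simp only [VV, Finset.mem_insert, Finset.mem_singleton] at hm
        rcases hm with rfl | rfl | rfl
        · simp only [oth, if_true]
          rw [bet_off _ _ _ _ _ h2.ne, nr_eq_one _ _ _ _ d1, nr_eq_one _ _ _ _ d2]
          ring
        · have hne : i ≠ m := h1.ne
          simp only [oth, hne, if_false, if_true]
          rw [bet_off _ _ _ _ _ (h1.trans h2).ne, nr_eq_one _ _ _ _ d1', nr_eq_one _ _ _ _ d3]
          ring
        · have hne : i ≠ m := (h1.trans h2).ne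
          have hne2 : j ≠ m := h2.ne
          simp only [oth, hne, hne2, if_false]
          rw [bet_off _ _ _ _ _ h1.ne, nr_eq_one _ _ _ _ d2', nr_eq_one _ _ _ _ d3']
          ring
      rw [hbet, abs_mul, abs_of_nonneg hsN.le, mul_comm]
      refine mul_le_mul_of_nonneg_right ?_ hsN.le
      have := (fderiv ℝ f2 (Real.sqrt N • (x i - x j, x i - x l))).le_opNorm
        (wv m k i - wv m k j, wv m k i - wv m k l)
      rw [Real.norm_eq_abs] at this
      refine le_trans this ?_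
      have h3 : ‖((wv m k i - wv m k j, wv m k i - wv m k l) : E3 × E3)‖ ≤ 1 := by
        rw [Prod.norm_def]
        exact max_le (norm_wv_sub m k i j h1.ne) (norm_wv_sub m k i l (h1.trans h2).ne)
      calc ‖fderiv ℝ f2 (Real.sqrt N • (x i - x j, x i - x l))‖ *
            ‖((wv m k i - wv m k j, wv m k i - wv m k l) : E3 × E3)‖ ≤ C0 * 1 :=
            mul_le_mul (hb2 _) h3 (norm_nonneg _) hC0
        _ = C0 := mul_one _

/-- the sum of the squares of all derivatives of the factor of a cluster -/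
def Sq {N : ℕ} (f1 : E3 → ℝ) (f2 : E3 × E3 → ℝ) (c : Cl N) (x : Cfg N) : ℝ :=
  match c with
  | Sum.inl p => (N : ℝ) ^ 2 * (2 * g3r f1 ((N : ℝ) • (x p.1 - x p.2)))
  | Sum.inr p => (N : ℝ) * g6r f2 (Real.sqrt N • (x p.1 - x p.2.1, x p.1 - x p.2.2))

theorem sum_three {N : ℕ} (i j l : Fin N) (hij : i ≠ j) (hil : i ≠ l) (hjl : j ≠ l)
    (g : Fin N → ℝ) (h : ∀ m, m ≠ i → m ≠ j → m ≠ l → g m = 0) :
    ∑ m, g m = g i + g j + g l := by
  have hsub : ({i, j, l} : Finset (Fin N)) ⊆ Finset.univ := Finset.subset_univ _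
  rw [← Finset.sum_subset hsub, Finset.sum_insert, Finset.sum_insert, Finset.sum_singleton]
  · ring
  · simpa using hjl
  · simp [hij, hil]
  · intro m _ hm
    simp only [Finset.mem_insert, Finset.mem_singleton, not_or] at hm
    exact h m hm.1 hm.2.1 hm.2.2

theorem sum_two' {N : ℕ} (i j : Fin N) (hij : i ≠ j)
    (g : Fin N → ℝ) (h : ∀ m, m ≠ i → m ≠ j → g m = 0) :
    ∑ m, g m = g i + g j := by
  have hsub : ({i, j} : Finset (Fin N)) ⊆ Finset.univ := Finset.subset_univ _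
  rw [← Finset.sum_subset hsub, Finset.sum_pair hij]
  intro m _ hm
  simp only [Finset.mem_insert, Finset.mem_singleton, not_or] at hm
  exact h m hm.1 hm.2

theorem Sq_eq {N : ℕ} (f1 : E3 → ℝ) (f2 : E3 × E3 → ℝ) (c : Cl N)
    (hc : c ∈ sA (Finset.univ : Finset (Fin N))) (x : Cfg N) :
    ∑ m : Fin N, ∑ k : Fin 3, (LC f1 f2 c x (wv m k)) ^ 2 = Sq f1 f2 c x := by
  rcases c with ⟨i, j⟩ | ⟨i, j, l⟩
  · simp only [sA, Finset.inl_mem_disjSum, Finset.mem_filter, Finset.mem_product,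
      Finset.mem_univ, true_and] at hc
    rw [sum_two' i j hc.ne]
    · simp only [LC_inl, wv_same, wv_ne i _ j hc.ne', wv_ne j _ i hc.ne, sub_zero, zero_sub,
        map_neg, Sq, g3r]
      rw [Finset.mul_sum, Finset.mul_sum, ← Finset.sum_add_distrib]
      refine Finset.sum_congr rfl (fun k _ => ?_)
      ring
    · intro m h1 h2
      refine Finset.sum_eq_zero (fun k _ => ?_)
      rw [LC_zero f1 f2 _ x m k (by simp [VV, h1, h2])]
      norm_num
  · simp only [sA, Finset.inr_mem_disjSum, Finset.mem_filter, Finset.mem_product,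
      Finset.mem_univ, true_and] at hc
    obtain ⟨h1, h2⟩ := hc
    have h3 := h1.trans h2
    rw [sum_three i j l h1.ne h3.ne h2.ne]
    · simp only [LC_inr, wv_same, wv_ne i _ j h1.ne', wv_ne i _ l h3.ne', wv_ne j _ i h1.ne,
        wv_ne j _ l h2.ne', wv_ne l _ i h3.ne, wv_ne l _ j h2.ne, sub_zero, zero_sub, sub_self,
        Sq, g6r]
      have hs : Real.sqrt N ^ 2 = N := Real.sq_sqrt (Nat.cast_nonneg _)
      have n1 : ∀ k : Fin 3, ((-EuclideanSpace.single k (1 : ℝ), (0 : E3)) : E3 × E3) =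
          -(EuclideanSpace.single k (1 : ℝ), (0 : E3)) := by
        intro k
        simp
      have n2 : ∀ k : Fin 3, (((0 : E3), -EuclideanSpace.single k (1 : ℝ)) : E3 × E3) =
          -((0 : E3), EuclideanSpace.single k (1 : ℝ)) := by
        intro k
        simp
      simp only [n1, n2, map_neg]
      rw [Finset.mul_sum, ← Finset.sum_add_distrib, ← Finset.sum_add_distrib]
      refine Finset.sum_congr rfl (fun k _ => ?_)
      rw [mul_pow, mul_pow, mul_pow, hs]
      ring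
    · intro m a1 a2 a3
      refine Finset.sum_eq_zero (fun k _ => ?_)
      rw [LC_zero f1 f2 _ x m k (by simp [VV, a1, a2, a3])]
      norm_num

end Pool.Agent.W724.TWB
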